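import Mathlib

/-!
The integral of the modulus `G r ^ β` against the weight of the criterion.
-/

open MeasureTheory Set Filter
open scoped ENNReal NNReal Topology

set_option autoImplicit false

namespace Pool.Agent.U481.EU

lemma mod_int {G β S Ω : ℝ} (hG : 0 ≤ G) (hβ0 : 0 < β) (hβ2 : β < 2) (hS : 0 < S) (hΩ : 0 < Ω)
    (ρ : ℝ) : IntegrableOn (fun r => G * r ^ β * min Ω (S / r ^ 2) / r) (Ioo 0 ρ) ∧
      ∫ r in Ioo 0 ρ, G * r ^ β * min Ω (S / r ^ 2) / r
        ≤ G * (1 / β + 1 / (2 - β)) * (S ^ (β / 2) * Ω ^ (1 - β / 2)) := by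
  obtain ⟨f, hf⟩ : ∃ f : ℝ → ℝ, f = fun r => G * r ^ β * min Ω (S / r ^ 2) / r := ⟨_, rfl⟩
  obtain ⟨r₀, hr₀⟩ : ∃ r₀, r₀ = (S / Ω) ^ (1 / 2 : ℝ) := ⟨_, rfl⟩
  have hSΩ : 0 < S / Ω := by positivity
  have hr₀0 : 0 < r₀ := by rw [hr₀]; exact Real.rpow_pos_of_pos hSΩ _
  have hfc : ContinuousOn f (Ioi 0) := by
    rw [hf]
    refine ContinuousOn.div ?_ continuousOn_id (fun r hr => (ne_of_gt hr))
    refine (continuousOn_const.mul ?_).mul ?_
    · exact continuousOn_id.rpow_const fun r hr => Or.inl (ne_of_gt hr)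
    · exact ContinuousOn.inf continuousOn_const
        (continuousOn_const.div (continuousOn_id.pow 2) fun r hr => pow_ne_zero 2 (ne_of_gt hr))
  have hf0 : ∀ r ∈ Ioi (0 : ℝ), 0 ≤ f r := by
    intro r hr
    have hr' : 0 < r := hr
    rw [hf]
    have h1 : 0 ≤ min Ω (S / r ^ 2) := le_min hΩ.le (by positivity)
    have h2 : 0 ≤ r ^ β := Real.rpow_nonneg hr'.le _
    show 0 ≤ G * r ^ β * min Ω (S / r ^ 2) / r
    positivity
  have b1 : ∀ r ∈ Ioc 0 r₀, f r ≤ G * Ω * r ^ (β - 1) := by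
    intro r hr
    rw [hf]
    show G * r ^ β * min Ω (S / r ^ 2) / r ≤ G * Ω * r ^ (β - 1)
    have h2 : 0 ≤ r ^ β := Real.rpow_nonneg hr.1.le _
    rw [Real.rpow_sub hr.1, Real.rpow_one]
    calc G * r ^ β * min Ω (S / r ^ 2) / r ≤ G * r ^ β * Ω / r := by
          refine div_le_div_of_nonneg_right ?_ hr.1.le
          exact mul_le_mul_of_nonneg_left (min_le_left _ _) (by positivity)
      _ = _ := by ring
  have b2 : ∀ r ∈ Ioi r₀, f r ≤ G * S * r ^ (β - 3) := by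
    intro r hr
    have hr' : 0 < r := hr₀0.trans hr
    rw [hf]
    show G * r ^ β * min Ω (S / r ^ 2) / r ≤ G * S * r ^ (β - 3)
    have h2 : 0 ≤ r ^ β := Real.rpow_nonneg hr'.le _
    rw [Real.rpow_sub hr', show (3 : ℝ) = ((3 : ℕ) : ℝ) by norm_num, Real.rpow_natCast]
    calc G * r ^ β * min Ω (S / r ^ 2) / r ≤ G * r ^ β * (S / r ^ 2) / r := by
          refine div_le_div_of_nonneg_right ?_ hr'.le
          exact mul_le_mul_of_nonneg_left (min_le_right _ _) (by positivity)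
      _ = _ := by
          field_simp
  have i1 : IntegrableOn (fun r : ℝ => G * Ω * r ^ (β - 1)) (Ioc 0 r₀) := by
    have h1 : IntervalIntegrable (fun r : ℝ => r ^ (β - 1)) volume 0 r₀ :=
      intervalIntegral.intervalIntegrable_rpow' (by linarith)
    have h2 := (intervalIntegrable_iff_integrableOn_Ioc_of_le hr₀0.le).1 h1
    exact h2.const_mul _
  have i2 : IntegrableOn (fun r : ℝ => G * S * r ^ (β - 3)) (Ioi r₀) :=
    (integrableOn_Ioi_rpow_of_lt (by linarith) hr₀0).const_mul _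
  have hsub1 : Ioc 0 r₀ ⊆ Ioi (0 : ℝ) := fun r hr => hr.1
  have hsub2 : Ioi r₀ ⊆ Ioi (0 : ℝ) := Ioi_subset_Ioi hr₀0.le
  have j1 : IntegrableOn f (Ioc 0 r₀) := by
    refine Integrable.mono' i1 ((hfc.mono hsub1).aestronglyMeasurable measurableSet_Ioc) ?_
    refine (ae_restrict_iff' measurableSet_Ioc).2 (Eventually.of_forall fun r hr => ?_)
    rw [Real.norm_eq_abs, abs_of_nonneg (hf0 r (hsub1 hr))]
    exact b1 r hr
  have j2 : IntegrableOn f (Ioi r₀) := by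
    refine Integrable.mono' i2 ((hfc.mono hsub2).aestronglyMeasurable measurableSet_Ioi) ?_
    refine (ae_restrict_iff' measurableSet_Ioi).2 (Eventually.of_forall fun r hr => ?_)
    rw [Real.norm_eq_abs, abs_of_nonneg (hf0 r (hsub2 hr))]
    exact b2 r hr
  have hun : Ioc 0 r₀ ∪ Ioi r₀ = Ioi (0 : ℝ) := Ioc_union_Ioi_eq_Ioi hr₀0.le
  have j3 : IntegrableOn f (Ioi 0) := by
    rw [← hun]
    exact j1.union j2
  have hsub : Ioo 0 ρ ⊆ Ioi (0 : ℝ) := fun r hr => hr.1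
  have e1 : ∫ r in Ioc 0 r₀, G * Ω * r ^ (β - 1) = G * (S ^ (β / 2) * Ω ^ (1 - β / 2)) * (1 / β) := by
    rw [integral_const_mul, ← intervalIntegral.integral_of_le hr₀0.le,
      integral_rpow (Or.inl (by linarith)), sub_add_cancel, Real.zero_rpow hβ0.ne', sub_zero, hr₀,
      ← Real.rpow_mul hSΩ.le, Real.div_rpow hS.le hΩ.le,
      show (1 / 2 : ℝ) * β = β / 2 by ring]
    have h1 : Ω ^ (1 - β / 2) = Ω / Ω ^ (β / 2) := by
      rw [Real.rpow_sub hΩ, Real.rpow_one]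
    rw [h1]
    ring
  have e2 : ∫ r in Ioi r₀, G * S * r ^ (β - 3)
      = G * (S ^ (β / 2) * Ω ^ (1 - β / 2)) * (1 / (2 - β)) := by
    rw [integral_const_mul, integral_Ioi_rpow_of_lt (by linarith) hr₀0, hr₀,
      ← Real.rpow_mul hSΩ.le, Real.div_rpow hS.le hΩ.le,
      show (1 / 2 : ℝ) * (β - 3 + 1) = β / 2 - 1 by ring]
    have h1 : Ω ^ (1 - β / 2) * Ω ^ (β / 2 - 1) = 1 := by
      rw [← Real.rpow_add hΩ, show 1 - β / 2 + (β / 2 - 1) = 0 by ring, Real.rpow_zero]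
    have h2 : S ^ (β / 2 - 1) = S ^ (β / 2) / S := by
      rw [Real.rpow_sub hS, Real.rpow_one]
    have h3 : 0 < Ω ^ (β / 2 - 1) := Real.rpow_pos_of_pos hΩ _
    have h4 : Ω ^ (1 - β / 2) = (Ω ^ (β / 2 - 1))⁻¹ := eq_inv_of_mul_eq_one_left h1
    rw [h2, h4]
    have h5 : β - 3 + 1 ≠ 0 := by
      intro hc
      linarith
    have h6 : (2 - β) ≠ 0 := by
      intro hc
      linarith
    field_simp
    ring
  constructor
  · have := j3.mono_set hsub
    rw [hf] at this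
    exact this
  · have h1 : ∫ r in Ioo 0 ρ, f r ≤ ∫ r in Ioi 0, f r :=
      setIntegral_mono_set j3 ((ae_restrict_iff' measurableSet_Ioi).2
        (Eventually.of_forall fun r hr => hf0 r hr)) hsub.eventuallyLE
    have h2 : ∫ r in Ioi 0, f r = (∫ r in Ioc 0 r₀, f r) + ∫ r in Ioi r₀, f r := by
      rw [← hun]
      exact setIntegral_union (by
        rw [Set.disjoint_left]
        intro r hr hr2
        exact absurd hr.2 (not_le.2 hr2)) measurableSet_Ioi j1 j2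
    have h3 : ∫ r in Ioc 0 r₀, f r ≤ ∫ r in Ioc 0 r₀, G * Ω * r ^ (β - 1) :=
      setIntegral_mono_on j1 i1 measurableSet_Ioc b1
    have h4 : ∫ r in Ioi r₀, f r ≤ ∫ r in Ioi r₀, G * S * r ^ (β - 3) :=
      setIntegral_mono_on j2 i2 measurableSet_Ioi b2
    rw [e1] at h3
    rw [e2] at h4
    have h5 : ∫ r in Ioo 0 ρ, G * r ^ β * min Ω (S / r ^ 2) / r = ∫ r in Ioo 0 ρ, f r := by
      rw [hf]
    rw [h5]
    calc ∫ r in Ioo 0 ρ, f r ≤ _ := h1
      _ = _ := h2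
      _ ≤ _ := add_le_add h3 h4
      _ = _ := by ring

end Pool.Agent.U481.EU
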