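import Pool.Agent.W786.Max4

/-!
The energy of the solutions of the Euler equations.
-/

open MeasureTheory Set Filter Metric
open scoped ENNReal NNReal Topology

set_option autoImplicit false

namespace Pool.Agent.U481.EU

open Pool.Agent.H708R2.EulerSign Pool.Agent.H708R2.EulerTypeI

/-- The integral over a small cube is at most the integral over the period cell. -/
lemma cell_int {f : V → ℝ} (hf : Continuous f) (h0 : ∀ x, 0 ≤ f x) (hp : Periodic3 f) (x : V)
    {r : ℝ} (hr : r ≤ 1) : ∫ y in closedBall x r, f y ≤ ∫ y in Dom, f y := by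
  obtain ⟨c, hc⟩ : ∃ c : V, c = fun i => x i - Real.pi := ⟨_, rfl⟩
  have hfd := image_fd (F := fun y : V => y + c) ⟨add_left_injective c, add_right_surjective c⟩
    (by fun_prop) (fun g _ y => by abel)
  have h1 : ∫ y in (fun y : V => y + c) '' Dom, f y = ∫ y in Dom, f y := by
    refine hfd.setIntegral_eq dom_fd fun g y => ?_
    have h2 : (g +ᵥ y : V) = y + g := by rw [add_comm]; rfl
    rw [h2]
    exact hp.lat g.2 y
  rw [← h1]
  have hm : MeasurableSet ((fun y : V => y + c) '' Dom) := by
    have : (fun y : V => y + c) '' Dom = (fun y : V => y - c) ⁻¹' Dom := by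
      ext y
      simp only [mem_image, mem_preimage]
      constructor
      · rintro ⟨z, hz, rfl⟩
        simpa using hz
      · intro h
        exact ⟨y - c, h, by simp⟩
    rw [this]
    exact dom_meas.preimage (by fun_prop)
  refine setIntegral_mono_set ?_ (Eventually.of_forall h0) ?_
  · have hb : Bornology.IsBounded ((fun y : V => y + c) '' Dom) := by
      obtain ⟨B, hB⟩ := dom_bdd.exists_norm_le
      refine (isBounded_iff_forall_norm_le).2 ⟨B + ‖c‖, ?_⟩
      rintro _ ⟨z, hz, rfl⟩
      exact (norm_add_le _ _).trans (by linarith [hB z hz])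
    exact (hf.continuousOn.integrableOn_compact hb.isCompact_closure).mono_set subset_closure
  · refine HasSubset.Subset.eventuallyLE ?_
    intro y hy
    refine ⟨y - c, ?_, by simp⟩
    rw [ZSpan.mem_fundamentalDomain]
    intro i
    have h3 : bas.repr (y - c) i = (y i - c i) / (2 * Real.pi) := by
      rw [bas, Module.Basis.repr_isUnitSMul]
      simp [Units.smul_def, div_eq_inv_mul]
    rw [h3, hc]
    rw [mem_closedBall, dist_pi_le_iff (by
      rcases le_or_gt 0 r with h | h
      · exact h
      · exact absurd hy (not_le.2 (h.trans_le dist_nonneg)))] at hy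
    have h4 := hy i
    rw [Real.dist_eq, abs_le] at h4
    have h5 := Real.pi_gt_three
    constructor
    · exact div_nonneg (by linarith) (by linarith)
    · rw [div_lt_one (by linarith)]
      linarith

variable {T : ℝ} {u : ℝ → V → V} {p : ℝ → V → ℝ}

/-- The energy over the period cell. -/
noncomputable def ener (v : V → V) : ℝ := ∫ x in Dom, sq3 (v x)

/-- The conservation of energy. -/
lemma ener_eq (h : IsClassicalSolution (Ico 0 T) u p) {t : ℝ} (ht : t ∈ Ico 0 T) :
    ener (u t) = ener (u 0) := by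
  obtain ⟨o, ho⟩ : ∃ o : ℝ → V → V, o = fun _ _ => 0 := ⟨_, rfl⟩
  have hc0 : ContDiff ℝ 1 (fun z : ℝ × V => o z.1 z.2) := by
    rw [ho]
    exact contDiff_const
  have he : ∀ s, en u o s = ener (u s) := by
    intro s
    unfold en ener
    simp [ho]
  have hcont := en_continuousOn h hc0
  rcases ht.1.eq_or_lt with h0 | h0
  · rw [← h0]
  · have hsub : Icc 0 t ⊆ Ico 0 T := fun s hs => ⟨hs.1, hs.2.trans_lt ht.2⟩
    obtain ⟨c, hc, hc2⟩ := exists_hasDerivAt_eq_slope (en u o)
      (fun s => ∫ x in Dom, dS u o s x) h0 (hcont.mono hsub)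
      (fun s hs => en_hasDerivAt h hc0 ⟨hs.1, hs.2.trans ht.2⟩)
    have h1 := en_deriv_le h hc0 (fun _ _ _ => by simp [ho]) (fun _ _ => by
      simp [divergence_eq_sum, ho]) (fun _ _ _ => by simp [ho]) (K := 0)
      (fun _ _ _ _ _ => by simp [grad, ho]) (t := c) ⟨hc.1, hc.2.trans ht.2⟩
    rw [mul_zero, zero_mul] at h1
    have h2 : ∫ x in Dom, dS u o c x = 0 := abs_eq_zero.1 (le_antisymm h1 (abs_nonneg _))
    rw [h2, eq_comm, div_eq_zero_iff] at hc2
    rcases hc2 with h3 | h3
    · rw [he, he] at h3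
      linarith
    · linarith

/-- The local energy. -/
lemma loc_ener (h : IsClassicalSolution (Ico 0 T) u p) {t : ℝ} (ht : t ∈ Ico 0 T) (x : V) {r : ℝ}
    (hr : r ≤ 1) : ∫ y in closedBall x r, u t y ⬝ᵥ u t y ≤ ener (u 0) := by
  rw [← ener_eq h ht]
  have h1 : ∀ y, u t y ⬝ᵥ u t y = sq3 (u t y) := by
    intro y
    simp [dotProduct, sq3, sq]
  simp only [h1]
  have hc : Continuous (u t) := (contDiff_slice h.contDiffOn_u ht).continuous
  refine cell_int ((sq3_contDiff (n := 0)).continuous.comp hc) (fun y => sq3_nonneg _) ?_ x hr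
  intro i y
  show sq3 (u t (y + Pi.single i (2 * Real.pi))) = sq3 (u t y)
  rw [h.periodic_u t ht i y]

end Pool.Agent.U481.EU
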