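import Pool.Agent.U481.EU.Rate
import Pool.Agent.U481.EU.En

/-!
The continuation criterion for the Euler equations.
-/

open MeasureTheory Set Filter
open scoped ENNReal NNReal Topology

set_option autoImplicit false

namespace Pool.Agent.U481.EU

open Pool.Agent.H708R2.EulerSign Pool.Agent.H708R2.EulerTypeI Pool.Agent.W786.Max

variable {T : ℝ} {u : ℝ → V → V} {p : ℝ → V → ℝ}

/-- The growth of the maximum of the vorticity. -/
theorem grow (h : IsC2Solution T u p) {b Λ : ℝ → ℝ} (hb0 : ∀ t ∈ Ioo 0 T, 0 ≤ b t)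
    (hbi : IntegrableOn b (Ioo 0 T)) (hΛ : MonotoneOn Λ (Ioo 0 T))
    (hyp : ∀ᵐ t, t ∈ Ioo 0 T → ∃ x, IsMaxPt u t x ∧
      (Λ t < nrm (vort (u t) x) → Pq u t x ≤ b t * Wq u t x))
    {W : ℝ} (hW : ∀ x, nrm (vort (u 0) x) ≤ W) :
    ∀ t ∈ Ioo 0 T, ∀ x,
      nrm (vort (u t) x) ≤ max W (Λ t) * Real.exp (∫ s in Ioo 0 t, b s) := by
  intro c hc x
  have hW0 : 0 ≤ W := (nrm_nonneg _).trans (hW 0)
  have hm0 : 0 ≤ max W (Λ c) := hW0.trans (le_max_left _ _)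
  obtain ⟨β, hβ⟩ : ∃ β : ℝ → ℝ, β = fun t => if t ∈ Ioo 0 T then b t else 0 := ⟨_, rfl⟩
  have hβ0 : ∀ t, 0 ≤ β t := by
    intro t
    rw [hβ]
    show 0 ≤ if t ∈ Ioo 0 T then b t else 0
    split_ifs with ht
    · exact hb0 t ht
    · exact le_rfl
  have hβe : ∀ t ∈ Ioo 0 T, β t = b t := by
    intro t ht
    rw [hβ]
    exact if_pos ht
  have hβi : IntegrableOn β (Icc 0 c) := by
    rw [integrableOn_Icc_iff_integrableOn_Ioo]
    refine (hbi.mono_set (Ioo_subset_Ioo_right hc.2.le)).congr_fun (fun r hr => ?_) measurableSet_Ioo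
    exact (hβe r ⟨hr.1, hr.2.trans hc.2⟩).symm
  have hii : ∀ s ∈ Icc 0 c, IntervalIntegrable β volume 0 s := fun s hs =>
    (intervalIntegrable_iff_integrableOn_Icc_of_le hs.1).2
      (hβi.mono_set (Icc_subset_Icc_right hs.2))
  have hconv : ∫ s in Ioo 0 c, b s = ∫ s in (0 : ℝ)..c, β s := by
    rw [intervalIntegral.integral_of_le hc.1.le, integral_Ioc_eq_integral_Ioo]
    refine setIntegral_congr_fun measurableSet_Ioo fun r hr => ?_
    exact (hβe r ⟨hr.1, hr.2.trans hc.2⟩).symm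
  rw [hconv]
  refine comp_max h le_rfl hc.1.le hc.2 (ρ := β)
    (G := fun t => max W (Λ c) * Real.exp (∫ s in (0 : ℝ)..t, β s)) ?_ hβi
    (fun t _ => hβ0 t) ?_ ?_ ?_ x
  · have h1 : ContinuousOn (fun t => ∫ s in (0 : ℝ)..t, β s) (Icc 0 c) := by
      have := intervalIntegral.continuousOn_primitive_interval (f := β) (a := 0) (b := c)
        (by rwa [uIcc_of_le hc.1.le])
      rwa [uIcc_of_le hc.1.le] at this
    exact continuousOn_const.mul (Real.continuous_exp.comp_continuousOn h1)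
  · intro s hs
    have h1 : (∫ r in (0 : ℝ)..s, β r) + ∫ r in s..c, β r = ∫ r in (0 : ℝ)..c, β r :=
      intervalIntegral.integral_add_adjacent_intervals (hii s hs)
        ((hii s hs).symm.trans (hii c ⟨hc.1.le, le_rfl⟩))
    rw [mul_assoc, ← Real.exp_add, h1]
  · intro y
    simp only [intervalIntegral.integral_same, Real.exp_zero, mul_one]
    exact (hW y).trans (le_max_left _ _)
  · filter_upwards [hyp] with t ht htI
    have htT : t ∈ Ioo 0 T := ⟨htI.1, htI.2.trans hc.2⟩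
    obtain ⟨y, hy, hy2⟩ := ht htT
    refine ⟨y, hy, fun hlt => ?_⟩
    have h1 : Λ t ≤ Λ c := hΛ htT hc htI.2.le
    have h2 : 0 ≤ ∫ s in (0 : ℝ)..t, β s :=
      intervalIntegral.integral_nonneg htI.1.le fun s _ => hβ0 s
    have h3 : 1 ≤ Real.exp (∫ s in (0 : ℝ)..t, β s) := Real.one_le_exp h2
    have h4 : Λ t < nrm (vort (u t) y) := lt_of_le_of_lt (by
      calc Λ t ≤ max W (Λ c) := h1.trans (le_max_right _ _)
        _ ≤ max W (Λ c) * Real.exp (∫ s in (0 : ℝ)..t, β s) := le_mul_of_one_le_right hm0 h3) hlt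
    have h5 := hy2 h4
    rw [← hβe t htT] at h5
    exact h5

/-- Finiteness of the Beale-Kato-Majda integral. -/
theorem grow_bkm (h : IsC2Solution T u p) {b Λ : ℝ → ℝ} (hb0 : ∀ t ∈ Ioo 0 T, 0 ≤ b t)
    (hbi : IntegrableOn b (Ioo 0 T)) (hΛ : MonotoneOn Λ (Ioo 0 T))
    (hΛi : IntegrableOn Λ (Ioo 0 T))
    (hyp : ∀ᵐ t, t ∈ Ioo 0 T → ∃ x, IsMaxPt u t x ∧
      (Λ t < nrm (vort (u t) x) → Pq u t x ≤ b t * Wq u t x)) :
    BKMFinite T u := by
  unfold BKMFinite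
  rcases le_or_gt T 0 with hT | hT
  · rw [Ioo_eq_empty (not_lt.2 hT)]
    simp
  obtain ⟨W, hW0, hW⟩ := vort_bound h.sol (b := 0) hT
  have hb := grow h hb0 hbi hΛ hyp (fun x => (hW 0 ⟨le_rfl, le_rfl⟩ x).1)
  set E := Real.exp (∫ s in Ioo 0 T, b s) with hE
  have hEt : ∀ t ∈ Ioo 0 T, Real.exp (∫ s in Ioo 0 t, b s) ≤ E := by
    intro t ht
    refine Real.exp_le_exp.2 ?_
    refine setIntegral_mono_set hbi ?_ (Ioo_subset_Ioo_right ht.2.le).eventuallyLE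
    exact (ae_restrict_iff' measurableSet_Ioo).2 (Eventually.of_forall fun s hs => hb0 s hs)
  have h1 : ∫⁻ t in Ioo 0 T, ⨆ x, ENNReal.ofReal (nrm (vort (u t) x))
      ≤ ∫⁻ t in Ioo 0 T, ENNReal.ofReal ((W + |Λ t|) * E) := by
    refine setLIntegral_mono' measurableSet_Ioo fun t ht => ?_
    refine iSup_le fun x => ENNReal.ofReal_le_ofReal ((hb t ht x).trans ?_)
    have h2 : max W (Λ t) ≤ W + |Λ t| :=
      max_le (by have := abs_nonneg (Λ t); linarith) (by have := le_abs_self (Λ t); linarith)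
    have h3 := hEt t ht
    have h4 := abs_nonneg (Λ t)
    gcongr
  refine h1.trans_lt ?_
  have h2 : IntegrableOn (fun t => (W + |Λ t|) * E) (Ioo 0 T) := by
    refine Integrable.mul_const ?_ E
    refine Integrable.add ?_ hΛi.abs
    exact integrableOn_const (by simp)
  exact h2.lintegral_lt_top

lemma TimeFn.mono {κ κ' ρ : ℝ} {v : V → V} {x : V} (h : TimeFn κ ρ v x) (hκ : κ' ≤ κ) :
    TimeFn κ' ρ v x := by
  obtain ⟨g, h1, h2, h3⟩ := h
  exact ⟨g, h1, h2, fun y hy => (mul_le_mul_of_nonneg_right hκ (nrm_nonneg _)).trans (h3 y hy)⟩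

/-- The criterion. -/
theorem crit (h : IsC2Solution T u p) {κ : ℝ} (hκ : 0 < κ) {ρ H Λ : ℝ → ℝ}
    (hρ : ∀ t ∈ Ioo 0 T, 0 < ρ t ∧ ρ t ≤ 1)
    (hρi : IntegrableOn (fun t => ρ t ^ (-(5 / 2) : ℝ)) (Ioo 0 T))
    (hHi : IntegrableOn H (Ioo 0 T)) (hΛ : MonotoneOn Λ (Ioo 0 T))
    (hΛi : IntegrableOn Λ (Ioo 0 T))
    (hyp : ∀ᵐ t, t ∈ Ioo 0 T → ∃ x, IsMaxPt u t x ∧
      (Λ t < nrm (vort (u t) x) → TimeFn κ (ρ t) (u t) x ∧ Azi (ρ t) (H t) (u t) x)) :
    BKMFinite T u := by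
  obtain ⟨C, hC, hest⟩ := rate_est (κ := min κ 1) (lt_min hκ one_pos) (min_le_right _ _)
  obtain ⟨E, hE⟩ : ∃ E, E = ener (u 0) := ⟨_, rfl⟩
  have hE0 : 0 ≤ E := by rw [hE]; exact integral_nonneg fun _ => sq3_nonneg _
  refine grow_bkm h (b := fun t => C * (1 + E) * (|H t| + ρ t ^ (-(5 / 2) : ℝ)))
    (Λ := fun t => max (Λ t) 0) (fun t ht => ?_) ?_ ?_ ?_ ?_
  · have := Real.rpow_nonneg (hρ t ht).1.le (-(5 / 2) : ℝ)
    have := abs_nonneg (H t)
    positivity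
  · exact (hHi.abs.add hρi).const_mul _
  · exact fun s hs t ht hst => max_le_max (hΛ hs ht hst) le_rfl
  · exact hΛi.sup (integrableOn_const (by simp))
  · filter_upwards [hyp] with t ht htI
    obtain ⟨x, hx, hx2⟩ := ht htI
    refine ⟨x, hx, fun hlt => ?_⟩
    have htc : t ∈ Ico 0 T := ⟨htI.1.le, htI.2⟩
    have hpos : 0 < nrm (vort (u t) x) := (le_max_right _ _).trans_lt hlt
    obtain ⟨h1, h2⟩ := hx2 ((le_max_left _ _).trans_lt hlt)
    have hv : ContDiff ℝ 2 (u t) := Pool.Agent.W786.Dir.slice_two h htI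
    have h3 := hest E (ρ t) (H t) (u t) x (hρ t htI).1 hv (h.sol.div_free t htc)
      (by rw [hE]; exact loc_ener h.sol htc x (hρ t htI).2) hx hpos (h1.mono (min_le_left _ _)) h2
    have h4 : Pq u t x = (vort (u t) x ⬝ᵥ vort (u t) x)
        * Pool.Agent.W786.Dir.rate (u t) ((nrm (vort (u t) x))⁻¹ • vort (u t) x) x := by
      unfold Pq Pool.Agent.W786.Dir.rate
      rw [← nrm_sq, Matrix.mulVec_smul, smul_dotProduct, dotProduct_smul, smul_eq_mul, smul_eq_mul]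
      field_simp
    have h5 : 0 ≤ vort (u t) x ⬝ᵥ vort (u t) x := dot_self_nonneg _
    show Pq u t x ≤ C * (1 + E) * (|H t| + ρ t ^ (-(5 / 2) : ℝ)) * Wq u t x
    rw [h4, mul_comm]
    refine mul_le_mul_of_nonneg_right (h3.trans ?_) h5
    have h6 := le_abs_self (H t)
    gcongr

end Pool.Agent.U481.EU
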