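import Pool.Agent.U481.EU.Str
import Pool.Agent.Q85.VL.Defs
import Pool.Agent.U481.VL.Bas

/-!
The integral of the vorticity in terms of the velocity, if there is a function which increases along
the vortex lines.
-/

open MeasureTheory Set Filter Metric
open scoped ENNReal NNReal Topology ContDiff

set_option autoImplicit false

namespace Pool.Agent.U481.EU

open Pool.Agent.H708R2.EulerSign Pool.Agent.H708R2.EulerTypeI Pool.Agent.W786.Dir
open Pool.Agent.Q85.VL Pool.Agent.Q151.CC

variable {v : V → V}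

/-- The `j`-th unit vector. -/
noncomputable abbrev uv (j : Fin 3) : V := Pi.single j 1

lemma vort_c1 (hv : ContDiff ℝ 2 v) (i : Fin 3) : ContDiff ℝ 1 (fun y => vort v y i) := by
  have h := grad_contDiff hv
  fin_cases i
  · exact (h 2 1).sub (h 1 2)
  · exact (h 0 2).sub (h 2 0)
  · exact (h 1 0).sub (h 0 1)

lemma vort_DF (hv : ContDiff ℝ 2 v) : DF (vort v) := by
  refine ⟨vort_c1 hv, fun y => ?_⟩
  have hd : ∀ i j, DifferentiableAt ℝ (fun x => grad v x i j) y := fun i j =>
    (grad_contDiff hv i j).differentiable one_ne_zero y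
  have hs := fun i j k => grad_symm hv y i j k
  have e0 : H459R3.NS.pd 0 (fun z => vort v z 0) y
      = fderiv ℝ (fun x => grad v x 2 1) y (uv 0) - fderiv ℝ (fun x => grad v x 1 2) y (uv 0) := by
    have h1 : fderiv ℝ (fun z => grad v z 2 1 - grad v z 1 2) y = _ := fderiv_fun_sub (hd 2 1) (hd 1 2)
    show fderiv ℝ (fun z => grad v z 2 1 - grad v z 1 2) y (uv 0) = _
    rw [h1]
    rfl
  have e1 : H459R3.NS.pd 1 (fun z => vort v z 1) y
      = fderiv ℝ (fun x => grad v x 0 2) y (uv 1) - fderiv ℝ (fun x => grad v x 2 0) y (uv 1) := by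
    have h1 : fderiv ℝ (fun z => grad v z 0 2 - grad v z 2 0) y = _ := fderiv_fun_sub (hd 0 2) (hd 2 0)
    show fderiv ℝ (fun z => grad v z 0 2 - grad v z 2 0) y (uv 1) = _
    rw [h1]
    rfl
  have e2 : H459R3.NS.pd 2 (fun z => vort v z 2) y
      = fderiv ℝ (fun x => grad v x 1 0) y (uv 2) - fderiv ℝ (fun x => grad v x 0 1) y (uv 2) := by
    have h1 : fderiv ℝ (fun z => grad v z 1 0 - grad v z 0 1) y = _ := fderiv_fun_sub (hd 1 0) (hd 0 1)
    show fderiv ℝ (fun z => grad v z 1 0 - grad v z 0 1) y (uv 2) = _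
    rw [h1]
    rfl
  rw [Fin.sum_univ_three, e0, e1, e2]
  have s1 := hs 2 1 0
  have s2 := hs 1 2 0
  have s3 := hs 0 2 1
  linarith

lemma grad_comp (hv : ContDiff ℝ 2 v) (x : V) (k i : Fin 3) :
    grad v x k i = fderiv ℝ (fun y => v y k) x (uv i) := by
  have h1 : HasFDerivAt v (fderiv ℝ v x) x := ((hv.differentiable two_ne_zero) x).hasFDerivAt
  have h2 := (hasFDerivAt_pi'.1 h1 k).fderiv
  rw [h2]
  rfl

lemma int6 {f₁ f₂ f₃ f₄ f₅ f₆ : V → ℝ} (h₁ : Integrable f₁) (h₂ : Integrable f₂)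
    (h₃ : Integrable f₃) (h₄ : Integrable f₄) (h₅ : Integrable f₅) (h₆ : Integrable f₆) :
    ∫ y, (((f₁ y - f₂ y) + (f₃ y - f₄ y)) + (f₅ y - f₆ y))
      = ((∫ y, f₁ y) - (∫ y, f₂ y) + ((∫ y, f₃ y) - ∫ y, f₄ y)) + ((∫ y, f₅ y) - ∫ y, f₆ y) := by
  have e1 := integral_add (f := fun y => (f₁ y - f₂ y) + (f₃ y - f₄ y)) (g := fun y => f₅ y - f₆ y)
    ((h₁.sub h₂).add (h₃.sub h₄)) (h₅.sub h₆)
  have e2 := integral_add (f := fun y => f₁ y - f₂ y) (g := fun y => f₃ y - f₄ y)
    (h₁.sub h₂) (h₃.sub h₄)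
  rw [e1, e2, integral_sub h₁ h₂, integral_sub h₃ h₄, integral_sub h₅ h₆]

/-- The adjoint of the curl. -/
lemma curl_adj (hv : ContDiff ℝ 2 v) {a : Fin 3 → V → ℝ} (ha : ∀ j, ContDiff ℝ 1 (a j))
    (hs : ∀ j, HasCompactSupport (a j)) :
    ∫ y, ∑ j, a j y * vort v y j
      = ∫ y, (v y 0 * (fderiv ℝ (a 2) y (uv 1) - fderiv ℝ (a 1) y (uv 2))
        + v y 1 * (fderiv ℝ (a 0) y (uv 2) - fderiv ℝ (a 2) y (uv 0))
        + v y 2 * (fderiv ℝ (a 1) y (uv 0) - fderiv ℝ (a 0) y (uv 1))) := by
  have hvk : ∀ k, ContDiff ℝ 1 fun y => v y k := fun k => (contDiff_pi.1 hv k).of_le (by norm_num)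
  have hb : ∀ j k i, ∫ y, a j y * grad v y k i = -∫ y, fderiv ℝ (a j) y (uv i) * v y k := by
    intro j k i
    rw [← ibp (ha j) (hs j) (hvk k) (uv i)]
    refine integral_congr_ae (Eventually.of_forall fun y => ?_)
    simp only [grad_comp hv]
  have i1 : ∀ j k i, Integrable fun y => a j y * grad v y k i := fun j k i =>
    ((ha j).continuous.mul (grad_contDiff hv k i).continuous).integrable_of_hasCompactSupport
      (hs j).mul_right
  have i2 : ∀ j k i, Integrable fun y => fderiv ℝ (a j) y (uv i) * v y k := fun j k i =>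
    ((((ha j).continuous_fderiv one_ne_zero).clm_apply continuous_const).mul
      (hvk k).continuous).integrable_of_hasCompactSupport ((hs j).fderiv_apply (𝕜 := ℝ) _).mul_right
  have e1 : ∫ y, ∑ j, a j y * vort v y j
      = ∫ y, (((a 0 y * grad v y 2 1 - a 0 y * grad v y 1 2)
        + (a 1 y * grad v y 0 2 - a 1 y * grad v y 2 0))
        + (a 2 y * grad v y 1 0 - a 2 y * grad v y 0 1)) := by
    refine integral_congr_ae (Eventually.of_forall fun y => ?_)
    simp only [Fin.sum_univ_three, vort, Matrix.cons_val_zero, Matrix.cons_val_one, Matrix.cons_val]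
    ring
  have e2 : ∫ y, (v y 0 * (fderiv ℝ (a 2) y (uv 1) - fderiv ℝ (a 1) y (uv 2))
        + v y 1 * (fderiv ℝ (a 0) y (uv 2) - fderiv ℝ (a 2) y (uv 0))
        + v y 2 * (fderiv ℝ (a 1) y (uv 0) - fderiv ℝ (a 0) y (uv 1)))
      = ∫ y, (((fderiv ℝ (a 2) y (uv 1) * v y 0 - fderiv ℝ (a 1) y (uv 2) * v y 0)
        + (fderiv ℝ (a 0) y (uv 2) * v y 1 - fderiv ℝ (a 2) y (uv 0) * v y 1))
        + (fderiv ℝ (a 1) y (uv 0) * v y 2 - fderiv ℝ (a 0) y (uv 1) * v y 2)) := by
    refine integral_congr_ae (Eventually.of_forall fun y => ?_)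
    ring
  rw [e1, e2, int6 (i1 0 2 1) (i1 0 1 2) (i1 1 0 2) (i1 1 2 0) (i1 2 1 0) (i1 2 0 1),
    int6 (i2 2 0 1) (i2 1 0 2) (i2 0 1 2) (i2 2 1 0) (i2 1 2 0) (i2 0 2 1)]
  simp only [hb]
  ring

/-- A cut-off function. -/
lemma exists_bump : ∃ (b : V → ℝ) (C : ℝ), 0 < C ∧ ContDiff ℝ ∞ b ∧ (∀ y, 0 ≤ b y) ∧
    (∀ y, b y ≤ 1) ∧ (∀ y ∈ closedBall (0 : V) 1, b y = 1) ∧ (∀ y, b y ≠ 0 → ‖y‖ ≤ 2) ∧
    ∀ y j, |fderiv ℝ b y (uv j)| ≤ C := by
  let B : ContDiffBump (0 : V) := ⟨1, 2, one_pos, one_lt_two⟩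
  have hc : Continuous fun y : V => ‖fderiv ℝ B y‖ :=
    ((B.contDiff (n := 1)).continuous_fderiv one_ne_zero).norm
  have hs : HasCompactSupport fun y : V => ‖fderiv ℝ B y‖ :=
    (B.hasCompactSupport.fderiv (𝕜 := ℝ)).norm
  obtain ⟨C, hC⟩ := hc.bounded_above_of_compact_support hs
  refine ⟨B, max C 1, by positivity, B.contDiff, fun y => B.nonneg, fun y => B.le_one,
    fun y hy => B.one_of_mem_closedBall hy, fun y hy => ?_, fun y j => ?_⟩
  · have h1 : y ∈ Function.support B := hy
    rw [B.support_eq, mem_ball_zero_iff] at h1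
    exact h1.le
  · have h1 := (fderiv ℝ B y).le_opNorm (uv j)
    have h2 : ‖(uv j : V)‖ = 1 := by
      rw [show (uv j : V) = Pi.single j 1 from rfl, Pi.norm_single, norm_one]
    rw [h2, mul_one, Real.norm_eq_abs] at h1
    have h3 := hC y
    rw [norm_norm] at h3
    exact h1.trans (h3.trans (le_max_left _ _))

lemma clm_sum (L : V →L[ℝ] ℝ) (w : V) : L w = ∑ j, w j * L (uv j) := by
  conv_lhs => rw [show w = ∑ k, w k • (uv k : V) by
    ext i; simp [Finset.sum_apply, Pi.single_apply]]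
  rw [map_sum]
  simp

lemma snd_symm {φ : V → ℝ} (hφ : ContDiff ℝ ∞ φ) (y : V) (i j : Fin 3) :
    fderiv ℝ (fun z => fderiv ℝ φ z (uv j)) y (uv i)
      = fderiv ℝ (fun z => fderiv ℝ φ z (uv i)) y (uv j) := by
  have hd : DifferentiableAt ℝ (fderiv ℝ φ) y :=
    ((hφ.of_le (m := 2) (by norm_cast)).fderiv_right (m := 1) (by norm_num)).differentiable
      one_ne_zero y
  have key : ∀ w, fderiv ℝ (fun z => fderiv ℝ φ z w) y = (fderiv ℝ (fderiv ℝ φ) y).flip w := by
    intro w
    have h1 : HasFDerivAt (fun z => fderiv ℝ φ z w) ((fderiv ℝ (fderiv ℝ φ) y).flip w) y := by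
      have h2 := hd.hasFDerivAt.clm_apply (hasFDerivAt_const w y)
      refine h2.congr_fderiv ?_
      ext z
      simp
    exact h1.fderiv
  rw [key, key]
  have hsym : IsSymmSndFDerivAt ℝ φ y := (hφ.of_le (m := 2) (by norm_cast)).contDiffAt.isSymmSndFDerivAt
    (by simp)
  exact hsym.eq (uv i) (uv j)

/-- The bound of the integral of the vorticity. -/
theorem l1_bound : ∃ C : ℝ, 0 < C ∧ ∀ (κ R : ℝ) (x : V) (m g : V → ℝ) (v : V → V), 0 < κ → 0 < R →
    ContDiff ℝ 2 v → LF κ (2 * R) x (fun y => nrm (vort v y)) m (vort v) g →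
    κ * ∫ y in closedBall x R, nrm (vort v y)
      ≤ C / R * (∫ y in closedBall x (2 * R), nrm (v y)) + ∫ y in closedBall x (2 * R), m y := by
  obtain ⟨b, C, hC, hbs, hb0, hb1, hbe, hbz, hbd⟩ := exists_bump
  refine ⟨6 * C, by positivity, fun κ R x m g v hκ hR hv h => ?_⟩
  obtain ⟨φ, hφ⟩ : ∃ φ : V → ℝ, φ = fun y => b (R⁻¹ • (y - x)) := ⟨_, rfl⟩
  have hφs : ContDiff ℝ ∞ φ := by
    rw [hφ]
    exact hbs.comp ((contDiff_id.sub contDiff_const).const_smul _)
  have hφ1 : ContDiff ℝ 1 φ := hφs.of_le (by norm_cast)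
  have hφ2 : ContDiff ℝ 2 φ := hφs.of_le (by norm_cast)
  have hφ0 : ∀ y, 0 ≤ φ y := fun y => by rw [hφ]; exact hb0 _
  have hφle : ∀ y, φ y ≤ 1 := fun y => by rw [hφ]; exact hb1 _
  have hφd : ∀ y w, fderiv ℝ φ y w = R⁻¹ * fderiv ℝ b (R⁻¹ • (y - x)) w := by
    intro y w
    have h1 : HasFDerivAt (fun y : V => R⁻¹ • (y - x)) (R⁻¹ • ContinuousLinearMap.id ℝ V) y :=
      ((hasFDerivAt_id (𝕜 := ℝ) y).sub_const x).const_smul R⁻¹
    have h2 : HasFDerivAt b (fderiv ℝ b (R⁻¹ • (y - x))) (R⁻¹ • (y - x)) :=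
      ((hbs.differentiable (by simp)) _).hasFDerivAt
    have h3 := (h2.comp y h1).fderiv
    have h4 : φ = b ∘ fun y : V => R⁻¹ • (y - x) := hφ
    rw [h4, h3]
    simp
  have hφu : ∀ y j, |fderiv ℝ φ y (uv j)| ≤ C / R := by
    intro y j
    rw [hφd, abs_mul, abs_of_pos (inv_pos.2 hR), div_eq_inv_mul]
    exact mul_le_mul_of_nonneg_left (hbd _ j) (inv_pos.2 hR).le
  have hφz : ∀ y, φ y ≠ 0 → y ∈ closedBall x (2 * R) := by
    intro y hy
    rw [hφ] at hy
    have h1 := hbz _ hy
    rw [norm_smul, Real.norm_eq_abs, abs_of_pos (inv_pos.2 hR), inv_mul_le_iff₀ hR] at h1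
    rw [mem_closedBall, dist_eq_norm]
    linarith
  have hφo : ∀ y ∈ closedBall x R, φ y = 1 := by
    intro y hy
    rw [hφ]
    refine hbe _ ?_
    rw [mem_closedBall, dist_eq_norm] at hy
    rw [mem_closedBall_zero_iff, norm_smul, Real.norm_eq_abs, abs_of_pos (inv_pos.2 hR),
      inv_mul_le_iff₀ hR]
    linarith
  have hts : tsupport φ ⊆ closedBall x (2 * R) := closure_minimal hφz isClosed_closedBall
  have hcs : HasCompactSupport φ :=
    (isCompact_closedBall x (2 * R)).of_isClosed_subset (isClosed_tsupport φ) hts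
  have hdz : ∀ y, y ∉ closedBall x (2 * R) → fderiv ℝ φ y = 0 := by
    intro y hy
    by_contra hc
    exact hy (hts (support_fderiv_subset ℝ hc))
  obtain ⟨G, hG⟩ : ∃ G : V → ℝ, G = fun y => g y - g x := ⟨_, rfl⟩
  have hG1 : ContDiff ℝ 1 G := by rw [hG]; exact h.gs.sub contDiff_const
  have hGd : ∀ y, fderiv ℝ G y = fderiv ℝ g y := by
    intro y
    rw [hG]
    exact fderiv_sub_const _
  obtain ⟨a, ha⟩ : ∃ a : Fin 3 → V → ℝ, a = fun j y => G y * fderiv ℝ φ y (uv j) := ⟨_, rfl⟩
  have hdj : ∀ j, ContDiff ℝ 1 fun y => fderiv ℝ φ y (uv j) := fun j =>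
    (hφ2.fderiv_right (m := 1) (by norm_num)).clm_apply contDiff_const
  have ha1 : ∀ j, ContDiff ℝ 1 (a j) := by
    intro j
    rw [ha]
    exact hG1.mul (hdj j)
  have has : ∀ j, HasCompactSupport (a j) := by
    intro j
    rw [ha]
    exact (hcs.fderiv_apply (𝕜 := ℝ) _).mul_left
  have had : ∀ j i y, fderiv ℝ (a j) y (uv i) = fderiv ℝ g y (uv i) * fderiv ℝ φ y (uv j)
      + G y * fderiv ℝ (fun z => fderiv ℝ φ z (uv j)) y (uv i) := by
    intro j i y
    have h1 : HasFDerivAt G (fderiv ℝ g y) y := by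
      rw [← hGd]
      exact (hG1.differentiable one_ne_zero y).hasFDerivAt
    have h2 := ((hdj j).differentiable one_ne_zero y).hasFDerivAt
    have h3 := (h1.mul h2).fderiv
    have h4 : a j = G * fun z => fderiv ℝ φ z (uv j) := by rw [ha]; rfl
    rw [h4, h3]
    simp
    ring
  have hgu : ∀ y i, |fderiv ℝ g y (uv i)| ≤ 1 := by
    intro y i
    have h1 := Pool.Agent.U481.VL.fderiv_le_len (h.gs.differentiable one_ne_zero y) h.lip (uv i)
    have h2 : Q67.VD.len (uv i) = 1 := nrm_single i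
    rwa [h2] at h1
  -- the test function `G φ`
  have w1 : ∫ y in closedBall x (2 * R), (G y * fderiv ℝ φ y (vort v y)
      + φ y * fderiv ℝ g y (vort v y)) = 0 := by
    have h1 := h.wd.div (fun y => G y * φ y) (hG1.mul hφ1) ((tsupport_mul_subset_right).trans hts)
    rw [← h1]
    refine integral_congr_ae (Eventually.of_forall fun y => ?_)
    have h2 : HasFDerivAt G (fderiv ℝ g y) y := by
      rw [← hGd]
      exact (hG1.differentiable one_ne_zero y).hasFDerivAt
    have h3 := (hφ1.differentiable one_ne_zero y).hasFDerivAt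
    have h4 := (h2.mul h3).fderiv
    show _ = fderiv ℝ (fun y => G y * φ y) y (vort v y)
    rw [show (fun y => G y * φ y) = G * φ from rfl, h4]
    simp
  have cω : Continuous (vort v) := vort_cont hv
  have c1 : Continuous fun y => G y * fderiv ℝ φ y (vort v y) :=
    hG1.continuous.mul ((hφ1.continuous_fderiv one_ne_zero).clm_apply cω)
  have c2 : Continuous fun y => φ y * fderiv ℝ g y (vort v y) :=
    hφ1.continuous.mul ((h.gs.continuous_fderiv one_ne_zero).clm_apply cω)
  have ic : ∀ {f : V → ℝ} (_ : Continuous f) (r : ℝ), IntegrableOn f (closedBall x r) := fun hf r =>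
    hf.continuousOn.integrableOn_compact (isCompact_closedBall x r)
  rw [integral_add (ic c1 _) (ic c2 _)] at w1
  -- the adjoint of the curl
  have w2 : ∫ y in closedBall x (2 * R), G y * fderiv ℝ φ y (vort v y)
      = ∫ y, ∑ j, a j y * vort v y j := by
    rw [setIntegral_eq_integral_of_forall_compl_eq_zero]
    · refine integral_congr_ae (Eventually.of_forall fun y => ?_)
      show G y * fderiv ℝ φ y (vort v y) = _
      rw [clm_sum, Finset.mul_sum]
      refine Finset.sum_congr rfl fun j _ => ?_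
      rw [ha]
      ring
    · intro y hy
      rw [hdz y hy]
      simp
  have w3 : |∫ y, ∑ j, a j y * vort v y j|
      ≤ 6 * C / R * ∫ y in closedBall x (2 * R), nrm (v y) := by
    rw [curl_adj hv ha1 has, ← integral_const_mul, ← integral_indicator measurableSet_closedBall,
      ← Real.norm_eq_abs]
    refine norm_integral_le_of_norm_le ?_ (Eventually.of_forall fun y => ?_)
    · rw [integrable_indicator_iff measurableSet_closedBall]
      exact (ic (nrm_cont.comp hv.continuous) _).const_mul _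
    · rw [Real.norm_eq_abs]
      by_cases hy : y ∈ closedBall x (2 * R)
      · rw [indicator_of_mem hy]
        simp only [had]
        rw [snd_symm hφs y 1 2, snd_symm hφs y 2 0, snd_symm hφs y 0 1]
        have g0 := hgu y 0
        have g1 := hgu y 1
        have g2 := hgu y 2
        have f0 := hφu y 0
        have f1 := hφu y 1
        have f2 := hφu y 2
        have hCR : 0 ≤ C / R := by positivity
        have pr : ∀ s t : ℝ, |s| ≤ 1 → |t| ≤ C / R → |s * t| ≤ C / R := by
          intro s t hs ht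
          rw [abs_mul]
          calc |s| * |t| ≤ 1 * (C / R) := mul_le_mul hs ht (abs_nonneg _) zero_le_one
            _ = _ := one_mul _
        have v0 := abs_le_nrm (v y) 0
        have v1 := abs_le_nrm (v y) 1
        have v2 := abs_le_nrm (v y) 2
        have tm : ∀ s p q : ℝ, |s| ≤ nrm (v y) → |p| ≤ C / R → |q| ≤ C / R →
            |s * (p - q)| ≤ nrm (v y) * (2 * (C / R)) := by
          intro s p q hs hp hq
          rw [abs_mul]
          refine mul_le_mul hs ?_ (abs_nonneg _) (nrm_nonneg _)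
          calc |p - q| ≤ |p| + |q| := abs_sub _ _
            _ ≤ _ := by linarith
        have t0 := tm _ _ _ v0 (pr _ _ g1 f2) (pr _ _ g2 f1)
        have t1 := tm _ _ _ v1 (pr _ _ g2 f0) (pr _ _ g0 f2)
        have t2 := tm _ _ _ v2 (pr _ _ g0 f1) (pr _ _ g1 f0)
        rw [show v y 0 * (fderiv ℝ g y (uv 1) * fderiv ℝ φ y (uv 2)
              + G y * fderiv ℝ (fun z => fderiv ℝ φ z (uv 1)) y (uv 2)
              - (fderiv ℝ g y (uv 2) * fderiv ℝ φ y (uv 1)
              + G y * fderiv ℝ (fun z => fderiv ℝ φ z (uv 1)) y (uv 2)))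
            + v y 1 * (fderiv ℝ g y (uv 2) * fderiv ℝ φ y (uv 0)
              + G y * fderiv ℝ (fun z => fderiv ℝ φ z (uv 2)) y (uv 0)
              - (fderiv ℝ g y (uv 0) * fderiv ℝ φ y (uv 2)
              + G y * fderiv ℝ (fun z => fderiv ℝ φ z (uv 2)) y (uv 0)))
            + v y 2 * (fderiv ℝ g y (uv 0) * fderiv ℝ φ y (uv 1)
              + G y * fderiv ℝ (fun z => fderiv ℝ φ z (uv 0)) y (uv 1)
              - (fderiv ℝ g y (uv 1) * fderiv ℝ φ y (uv 0)
              + G y * fderiv ℝ (fun z => fderiv ℝ φ z (uv 0)) y (uv 1)))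
            = v y 0 * (fderiv ℝ g y (uv 1) * fderiv ℝ φ y (uv 2)
                - fderiv ℝ g y (uv 2) * fderiv ℝ φ y (uv 1))
              + v y 1 * (fderiv ℝ g y (uv 2) * fderiv ℝ φ y (uv 0)
                - fderiv ℝ g y (uv 0) * fderiv ℝ φ y (uv 2))
              + v y 2 * (fderiv ℝ g y (uv 0) * fderiv ℝ φ y (uv 1)
                - fderiv ℝ g y (uv 1) * fderiv ℝ φ y (uv 0)) by ring]
        refine (abs_add_le _ _).trans ?_
        have h5 := abs_add_le (v y 0 * (fderiv ℝ g y (uv 1) * fderiv ℝ φ y (uv 2)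
                - fderiv ℝ g y (uv 2) * fderiv ℝ φ y (uv 1)))
              (v y 1 * (fderiv ℝ g y (uv 2) * fderiv ℝ φ y (uv 0)
                - fderiv ℝ g y (uv 0) * fderiv ℝ φ y (uv 2)))
        calc _ ≤ nrm (v y) * (2 * (C / R)) + nrm (v y) * (2 * (C / R))
                + nrm (v y) * (2 * (C / R)) := by linarith
          _ = 6 * C / R * nrm (v y) := by ring
      · rw [indicator_of_notMem hy]
        have hz : ∀ j i, fderiv ℝ (a j) y (uv i) = 0 := by
          intro j i
          have h1 : fderiv ℝ (a j) y = 0 := by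
            by_contra hc
            have h2 : tsupport (a j) ⊆ closedBall x (2 * R) := by
              rw [ha]
              refine closure_minimal (fun z hz => ?_) isClosed_closedBall
              by_contra hz2
              apply hz
              show G z * fderiv ℝ φ z (uv j) = 0
              rw [hdz z hz2]
              simp
            exact hy (h2 (support_fderiv_subset ℝ hc))
          rw [h1]
          rfl
        simp only [hz]
        simp
  -- conclusion
  have w4 : κ * ∫ y in closedBall x R, nrm (vort v y)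
      ≤ ∫ y in closedBall x (2 * R), (φ y * fderiv ℝ g y (vort v y) + m y) := by
    rw [← integral_const_mul]
    have cf : Continuous fun y => κ * nrm (vort v y) := continuous_const.mul (nrm_cont.comp cω)
    calc ∫ y in closedBall x R, κ * nrm (vort v y)
        = ∫ y in closedBall x (2 * R), (closedBall x R).indicator (fun y => κ * nrm (vort v y)) y := by
          rw [setIntegral_indicator measurableSet_closedBall,
            inter_eq_right.2 (closedBall_subset_closedBall (by linarith))]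
      _ ≤ _ := by
          refine setIntegral_mono_on ((ic cf _).indicator measurableSet_closedBall)
            ((ic c2 _).add (ic h.mc _)) measurableSet_closedBall fun y hy => ?_
          have h1 := h.lo y hy
          have h2 : (closedBall x R).indicator (fun y => κ * nrm (vort v y)) y
              ≤ φ y * (κ * nrm (vort v y)) := by
            by_cases hyR : y ∈ closedBall x R
            · rw [indicator_of_mem hyR, hφo y hyR, one_mul]
            · rw [indicator_of_notMem hyR]
              exact mul_nonneg (hφ0 y) (mul_nonneg hκ.le (nrm_nonneg _))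
          refine h2.trans ?_
          have h3 := mul_le_mul_of_nonneg_left h1 (hφ0 y)
          have h4 : φ y * m y ≤ m y := mul_le_of_le_one_left (h.m0 y) (hφle y)
          linarith
  rw [integral_add (ic c2 _) (ic h.mc _)] at w4
  have w5 := (abs_le.1 w3).1
  rw [← w2] at w5
  rw [show 6 * C / R * ∫ y in closedBall x (2 * R), nrm (v y)
    = 6 * C / R * ∫ y in closedBall x (2 * R), nrm (v y) from rfl]
  linarith

end Pool.Agent.U481.EU
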