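import Pool.Agent.U481.EU.Fin

/-!
A lower bound of the rate of blow-up of the vorticity.
-/

open MeasureTheory Set Filter
open scoped ENNReal NNReal Topology

set_option autoImplicit false

namespace Pool.Agent.U481.EU

open Pool.Agent.H708R2.EulerSign Pool.Agent.H708R2.EulerTypeI Pool.Agent.W786.Max

variable {T : ℝ} {u : ℝ → V → V} {p : ℝ → V → ℝ}

/-- If the Beale-Kato-Majda integral is infinite then the vorticity is unbounded near `T`. -/
lemma unb (h : IsC2Solution T u p) (hB : ¬ BKMFinite T u) {a : ℝ} (ha : a < T) (B : ℝ) :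
    ∃ b ∈ Ioo a T, 0 < b ∧ B < Mx u b := by
  by_contra hcon
  push Not at hcon
  apply hB
  rcases le_or_gt T 0 with hT | hT
  · unfold BKMFinite
    rw [Ioo_eq_empty (not_lt.2 hT)]
    simp
  obtain ⟨a', ha'⟩ : ∃ a', a' = max a 0 := ⟨_, rfl⟩
  have ha'T : a' < T := by rw [ha']; exact max_lt ha hT
  obtain ⟨C, hC0, hC⟩ := vort_bound h.sol ha'T
  have key : ∀ t ∈ Ioo 0 T, ∀ x, nrm (vort (u t) x) ≤ C + Real.sqrt |B| := by
    intro t ht x
    rcases le_or_gt t a' with hta | hta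
    · have := (hC t ⟨ht.1.le, hta⟩ x).1
      have := Real.sqrt_nonneg |B|
      linarith
    · have h1 := hcon t ⟨by rw [ha'] at hta; exact (le_max_left _ _).trans_lt hta, ht.2⟩ ht.1
      have h2 := Wq_le h.sol ⟨ht.1.le, ht.2⟩ x
      rw [Wq_eq] at h2
      have h3 : nrm (vort (u t) x) ≤ Real.sqrt |B| := by
        refine Real.le_sqrt_of_sq_le ?_
        exact (h2.trans h1).trans (le_abs_self B)
      linarith
  unfold BKMFinite
  have h1 : ∫⁻ t in Ioo 0 T, ⨆ x, ENNReal.ofReal (nrm (vort (u t) x))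
      ≤ ∫⁻ _t in Ioo 0 T, ENNReal.ofReal (C + Real.sqrt |B|) := by
    refine setLIntegral_mono' measurableSet_Ioo fun t ht => ?_
    exact iSup_le fun x => ENNReal.ofReal_le_ofReal (key t ht x)
  refine h1.trans_lt ?_
  rw [setLIntegral_const]
  exact ENNReal.mul_lt_top (by simp) (by simp)

/-- The lower bound of the rate. -/
theorem low_rate (h : IsC2Solution T u p) {T₀ α C Λ : ℝ} (hT0 : 0 ≤ T₀) (hT₀ : T₀ < T) (hα : 0 < α)
    (hC : 0 < C)
    (hyp : ∀ᵐ t, t ∈ Ioo T₀ T → ∃ x, IsMaxPt u t x ∧ (Λ < nrm (vort (u t) x) →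
      Pq u t x ≤ C * (nrm (vort (u t) x) ^ α + 1) * Wq u t x)) (hB : ¬ BKMFinite T u) :
    ∃ c : ℝ, 0 < c ∧ ∃ T₁ ∈ Ioo T₀ T, ∀ t ∈ Ioo T₁ T, ∃ x,
      c * (T - t) ^ (-(1 / α)) ≤ nrm (vort (u t) x) := by
  obtain ⟨θ, hθ⟩ : ∃ θ, θ = α / 2 := ⟨_, rfl⟩
  have hθ0 : 0 < θ := by rw [hθ]; positivity
  obtain ⟨A, hA⟩ : ∃ A, A = max Λ 1 ^ 2 := ⟨_, rfl⟩
  have hΛ1 : 1 ≤ max Λ 1 := le_max_right _ _
  have hA1 : 1 ≤ A := by rw [hA]; exact one_le_pow₀ hΛ1
  have hA0 : 0 < A := one_pos.trans_le hA1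
  obtain ⟨Φ, hΦ⟩ : ∃ Φ : ℝ → ℝ, Φ = fun M => -(max M A) ^ (-θ) := ⟨_, rfl⟩
  have hmx : ∀ M, 0 < max M A := fun M => hA0.trans_le (le_max_right _ _)
  have hΦm : Monotone Φ := by
    intro M M' hM
    rw [hΦ]
    show -(max M A) ^ (-θ) ≤ -(max M' A) ^ (-θ)
    rw [neg_le_neg_iff]
    exact Real.rpow_le_rpow_of_nonpos (hmx M) (max_le_max hM le_rfl) (by linarith)
  have hΦmin : ∀ M, M ≤ A → ∀ M', Φ M ≤ Φ M' := by
    intro M hM M'
    rw [hΦ]
    show -(max M A) ^ (-θ) ≤ -(max M' A) ^ (-θ)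
    rw [neg_le_neg_iff, max_eq_right hM]
    exact Real.rpow_le_rpow_of_nonpos hA0 (le_max_right _ _) (by linarith)
  -- the inequality for `Φ(Mx)`
  have step : ∀ a b, T₀ < a → a ≤ b → b < T →
      Φ (Mx u b) - Φ (Mx u a) ≤ 4 * C * θ * (b - a) := by
    intro a b ha hab hb
    have ha0 : 0 < a := hT0.trans_lt ha
    obtain ⟨C', hC'0, hC'⟩ := Mx_growth h hb
    have h1 : Φ (Mx u b) - Φ (Mx u a) ≤ ∫ _t in a..b, 4 * C * θ := by
      refine growth_of_ae (L := fun t => Φ (Mx u t)) (C := θ * (2 * C')) hab ?_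
        intervalIntegrable_const ?_
      · intro s hs t ht hst
        have h2 := hC' s ⟨ha0.le.trans hs.1, hs.2⟩ t ⟨ha0.le.trans ht.1, ht.2⟩ hst
        obtain ⟨q, hq⟩ : ∃ q, q = 2 * C' * (t - s) := ⟨_, rfl⟩
        have hq0 : 0 ≤ q := by
          rw [hq]
          have : 0 ≤ t - s := by linarith
          positivity
        rw [← hq] at h2
        have h3 : max (Mx u t) A ≤ max (Mx u s) A * Real.exp q := by
          have h4 : 1 ≤ Real.exp q := Real.one_le_exp hq0
          refine max_le (h2.trans ?_) ?_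
          · exact mul_le_mul_of_nonneg_right (le_max_left _ _) (Real.exp_pos _).le
          · exact (le_max_right (Mx u s) A).trans (le_mul_of_one_le_right (hmx _).le h4)
        have h5 : (max (Mx u s) A) ^ (-θ) * Real.exp (-(θ * q)) ≤ (max (Mx u t) A) ^ (-θ) := by
          have h6 : (max (Mx u s) A * Real.exp q) ^ (-θ) ≤ (max (Mx u t) A) ^ (-θ) :=
            Real.rpow_le_rpow_of_nonpos (hmx _) h3 (by linarith)
          rw [Real.mul_rpow (hmx _).le (Real.exp_pos _).le, ← Real.exp_mul] at h6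
          rwa [show q * -θ = -(θ * q) by ring] at h6
        have h7 : (max (Mx u s) A) ^ (-θ) ≤ 1 :=
          Real.rpow_le_one_of_one_le_of_nonpos (hA1.trans (le_max_right _ _)) (by linarith)
        have h8 : 0 < (max (Mx u s) A) ^ (-θ) := Real.rpow_pos_of_pos (hmx _) _
        have h9 : 1 - θ * q ≤ Real.exp (-(θ * q)) := by
          have := Real.add_one_le_exp (-(θ * q))
          linarith
        have h10 : 0 ≤ θ * q := by positivity
        rw [hΦ]
        show -(max (Mx u t) A) ^ (-θ) - -(max (Mx u s) A) ^ (-θ) ≤ θ * (2 * C') * (t - s)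
        have h11 : θ * (2 * C') * (t - s) = θ * q := by rw [hq]; ring
        rw [h11]
        have h12 : (max (Mx u s) A) ^ (-θ) * (1 - θ * q)
            ≤ (max (Mx u s) A) ^ (-θ) * Real.exp (-(θ * q)) :=
          mul_le_mul_of_nonneg_left h9 h8.le
        have h13 : (max (Mx u s) A) ^ (-θ) * (θ * q) ≤ 1 * (θ * q) :=
          mul_le_mul_of_nonneg_right h7 h10
        linarith
      · filter_upwards [hyp] with t ht htI d hd
        have htT : t ∈ Ioo T₀ T := ⟨ha.trans htI.1, htI.2.trans hb⟩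
        have htT0 : t ∈ Ioo 0 T := ⟨hT0.trans_lt htT.1, htT.2⟩
        obtain ⟨x, hx, hx2⟩ := ht htT
        have hMW : Mx u t = Wq u t x := Mx_eq h.sol ⟨htT0.1.le, htT0.2⟩ hx
        have hpos : 0 ≤ 4 * C * θ := by positivity
        rcases le_or_gt (Wq u t x) A with hle | hgt
        · have h2 : IsLocalMin (fun s => Φ (Mx u s)) t :=
            Eventually.of_forall fun s => hΦmin _ (by rw [hMW]; exact hle) _
          rw [h2.hasDerivAt_eq_zero hd]
          exact hpos
        · have hWpos : 0 < Wq u t x := hA0.trans hgt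
          obtain ⟨Ω, hΩ⟩ : ∃ Ω, Ω = nrm (vort (u t) x) := ⟨_, rfl⟩
          have hΩW : Wq u t x = Ω ^ 2 := by rw [hΩ]; exact Wq_eq _ _
          have hΩ0 : 0 ≤ Ω := by rw [hΩ]; exact nrm_nonneg _
          have hΩΛ : max Λ 1 < Ω := by
            rw [hA, hΩW] at hgt
            exact lt_of_pow_lt_pow_left₀ 2 hΩ0 hgt
          have hΩ1 : 1 < Ω := hΛ1.trans_lt hΩΛ
          have h3 := hx2 (by rw [← hΩ]; exact (le_max_left _ _).trans_lt hΩΛ)
          rw [← hΩ] at h3
          have hΦd : HasDerivAt Φ (θ * (Wq u t x) ^ (-θ - 1)) (Wq u t x) := by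
            have h4 : HasDerivAt (fun M : ℝ => -(M ^ (-θ))) (-(-θ * (Wq u t x) ^ (-θ - 1)))
                (Wq u t x) := (Real.hasDerivAt_rpow_const (Or.inl hWpos.ne')).neg
            rw [show -(-θ * (Wq u t x) ^ (-θ - 1)) = θ * (Wq u t x) ^ (-θ - 1) by ring] at h4
            refine h4.congr_of_eventuallyEq ?_
            filter_upwards [Ioi_mem_nhds hgt] with M hM
            rw [hΦ]
            show -(max M A) ^ (-θ) = -(M ^ (-θ))
            rw [max_eq_left (le_of_lt hM)]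
          have h5 := deriv_le h htT0 hx (hΦm.monotoneOn _) hΦd hd
          refine h5.trans ?_
          have h6 : Pq u t x ≤ 2 * C * (Wq u t x) ^ θ * Wq u t x := by
            refine h3.trans (mul_le_mul_of_nonneg_right ?_ hWpos.le)
            have h7 : (Wq u t x) ^ θ = Ω ^ α := by
              rw [hΩW, ← Real.rpow_natCast, ← Real.rpow_mul hΩ0, hθ]
              congr 1
              push_cast
              ring
            rw [h7]
            have h8 : 1 ≤ Ω ^ α := Real.one_le_rpow hΩ1.le hα.le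
            nlinarith
          have h9 : 0 ≤ θ * (Wq u t x) ^ (-θ - 1) := by
            have := Real.rpow_pos_of_pos hWpos (-θ - 1)
            positivity
          have h10 : (Wq u t x) ^ (-θ - 1) * ((Wq u t x) ^ θ * Wq u t x) = 1 := by
            have h11 : (Wq u t x) ^ θ * Wq u t x = (Wq u t x) ^ (θ + 1) := by
              rw [Real.rpow_add hWpos, Real.rpow_one]
            rw [h11, ← Real.rpow_add hWpos, show -θ - 1 + (θ + 1) = 0 by ring, Real.rpow_zero]
          calc θ * (Wq u t x) ^ (-θ - 1)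
                * (2 * (vort (u t) x ⬝ᵥ (grad (u t) x).mulVec (vort (u t) x)))
              ≤ θ * (Wq u t x) ^ (-θ - 1) * (2 * (2 * C * (Wq u t x) ^ θ * Wq u t x)) :=
                mul_le_mul_of_nonneg_left (mul_le_mul_of_nonneg_left h6 (by norm_num)) h9
            _ = 4 * C * θ * ((Wq u t x) ^ (-θ - 1) * ((Wq u t x) ^ θ * Wq u t x)) := by ring
            _ = 4 * C * θ := by rw [h10, mul_one]
    rw [intervalIntegral.integral_const, smul_eq_mul] at h1
    linarith
  -- the limit `b → T`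
  have lim : ∀ a, T₀ < a → a < T → (max (Mx u a) A) ^ (-θ) ≤ 4 * C * θ * (T - a) := by
    intro a ha haT
    by_contra hcon
    push Not at hcon
    obtain ⟨δ, hδ⟩ : ∃ δ, δ = (max (Mx u a) A) ^ (-θ) - 4 * C * θ * (T - a) := ⟨_, rfl⟩
    have hδ0 : 0 < δ := by rw [hδ]; linarith
    obtain ⟨b, hb, hb0, hbM⟩ := unb h hB haT (δ ^ (-(1 / θ)))
    have h1 := step a b ha hb.1.le hb.2
    rw [hΦ] at h1
    have h1' : -(max (Mx u b) A) ^ (-θ) - -(max (Mx u a) A) ^ (-θ) ≤ 4 * C * θ * (b - a) := h1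
    have h2 : (max (Mx u b) A) ^ (-θ) < δ := by
      have h3 : δ ^ (-(1 / θ)) < max (Mx u b) A := hbM.trans_le (le_max_left _ _)
      have h4 := Real.rpow_lt_rpow_of_neg (Real.rpow_pos_of_pos hδ0 _) h3 (show -θ < 0 by linarith)
      rwa [← Real.rpow_mul hδ0.le, show -(1 / θ) * -θ = 1 by field_simp, Real.rpow_one] at h4
    have h5 : 4 * C * θ * (b - a) ≤ 4 * C * θ * (T - a) :=
      mul_le_mul_of_nonneg_left (by linarith [hb.2]) (by positivity)
    linarith
  -- conclusion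
  obtain ⟨k, hk⟩ : ∃ k, k = 4 * C * θ := ⟨_, rfl⟩
  have hk0 : 0 < k := by rw [hk]; positivity
  rw [← hk] at lim
  obtain ⟨τ, hτ⟩ : ∃ τ, τ = A ^ (-θ) / k := ⟨_, rfl⟩
  have hτ0 : 0 < τ := by
    rw [hτ]
    exact div_pos (Real.rpow_pos_of_pos hA0 _) hk0
  refine ⟨k ^ (-(1 / α)), Real.rpow_pos_of_pos hk0 _, max ((T₀ + T) / 2) (T - τ), ⟨?_, ?_⟩, ?_⟩
  · exact lt_of_lt_of_le (by linarith) (le_max_left _ _)
  · exact max_lt (by linarith) (by linarith)
  · intro t ht
    have ht1 : T₀ < t := lt_of_le_of_lt (by linarith) ((le_max_left _ _).trans_lt ht.1)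
    have ht2 : T - τ < t := (le_max_right _ _).trans_lt ht.1
    have htT : 0 < T - t := by linarith [ht.2]
    have h1 := lim t ht1 ht.2
    have h2 : A < Mx u t := by
      by_contra hcon
      rw [max_eq_right (not_lt.1 hcon)] at h1
      have h3 : k * (T - t) < k * τ := mul_lt_mul_of_pos_left (by linarith) hk0
      rw [hτ, mul_div_cancel₀ _ hk0.ne'] at h3
      linarith
    rw [max_eq_left h2.le] at h1
    obtain ⟨x, hx⟩ := exists_isMaxPt h.sol (t := t) ⟨hT0.trans ht1.le, ht.2⟩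
    refine ⟨x, ?_⟩
    have hMW : Mx u t = nrm (vort (u t) x) ^ 2 := by
      rw [Mx_eq h.sol ⟨hT0.trans ht1.le, ht.2⟩ hx, Wq_eq]
    obtain ⟨Ω, hΩ⟩ : ∃ Ω, Ω = nrm (vort (u t) x) := ⟨_, rfl⟩
    have hΩ0 : 0 ≤ Ω := by rw [hΩ]; exact nrm_nonneg _
    rw [← hΩ] at hMW ⊢
    have hΩp : 0 < Ω := by
      rcases hΩ0.eq_or_lt with h0 | h0
      · rw [← h0] at hMW
        have : Mx u t = 0 := by rw [hMW]; ring
        linarith
      · exact h0
    have h4 : Mx u t ^ (-θ) = Ω ^ (-α) := by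
      rw [hMW, ← Real.rpow_natCast, ← Real.rpow_mul hΩ0, hθ]
      congr 1
      push_cast
      ring
    rw [h4] at h1
    have h5 := Real.rpow_le_rpow_of_nonpos (Real.rpow_pos_of_pos hΩp _) h1
      (show -(1 / α) ≤ 0 by
        have : 0 < 1 / α := by positivity
        linarith)
    rw [← Real.rpow_mul hΩ0, show -α * -(1 / α) = 1 by field_simp, Real.rpow_one,
      Real.mul_rpow hk0.le htT.le] at h5
    exact h5

end Pool.Agent.U481.EU
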