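import Pool.Agent.U481.EU.L1
import Pool.Agent.U481.VL.Pin
import Pool.Agent.Q151.CC.Pinch

/-!
The bound of the rate of stretching, at a fixed time.
-/

open MeasureTheory Set Filter Metric
open scoped ENNReal NNReal Topology ContDiff

set_option autoImplicit false

namespace Pool.Agent.U481.EU

open Pool.Agent.H708R2.EulerSign Pool.Agent.H708R2.EulerTypeI Pool.Agent.W786.Dir
open Pool.Agent.Q85.VL Pool.Agent.Q151.CC

variable {v : V → V}

lemma norm_le_nrm (z : V) : ‖z‖ ≤ nrm z :=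
  (pi_norm_le_iff_of_nonneg (nrm_nonneg z)).2 fun i => by
    rw [Real.norm_eq_abs]
    exact abs_le_nrm z i

lemma P_le_one (n : ℕ) (z : V) : P n z ≤ 1 := by
  unfold P
  refine pow_le_one₀ (le_max_right _ _) (max_le ?_ zero_le_one)
  have := dot_self_nonneg z
  linarith

/-- The averages over cubes. -/
lemma avg_le {f : V → ℝ} (hf : Continuous f) (h0 : ∀ y, 0 ≤ f y) (x : V) {r : ℝ} (hr : 0 < r) :
    ∫ z, P 2 z * f (x + r • z) ≤ (r ^ 3)⁻¹ * ∫ y in closedBall x r, f y := by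
  obtain ⟨h, hh⟩ : ∃ h : V → ℝ, h = (closedBall x r).indicator f := ⟨_, rfl⟩
  have hi : Integrable h := by
    rw [hh, integrable_indicator_iff measurableSet_closedBall]
    exact hf.continuousOn.integrableOn_compact (isCompact_closedBall x r)
  have hi2 : Integrable fun y => h (x + y) := hi.comp_add_left x
  have hi3 : Integrable fun z : V => h (x + r • z) := hi2.comp_smul hr.ne'
  have e1 : ∫ z : V, h (x + r • z) = (r ^ 3)⁻¹ * ∫ y in closedBall x r, f y := by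
    have h1 := Measure.integral_comp_smul (volume : Measure V) (fun y => h (x + y)) r
    rw [h1, integral_add_left_eq_self (f := h) x]
    have h2 : Module.finrank ℝ V = 3 := by simp
    rw [h2, abs_of_pos (by positivity), smul_eq_mul, hh, integral_indicator measurableSet_closedBall]
  rw [← e1]
  have hl : Integrable fun z : V => P 2 z * f (x + r • z) := by
    have h1 : Continuous fun z : V => P 2 z * f (x + r • z) :=
      (P_cont 2).mul (hf.comp (by fun_prop))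
    exact h1.integrable_of_hasCompactSupport (P_supp 1).mul_right
  refine integral_mono hl hi3 fun z => ?_
  show P 2 z * f (x + r • z) ≤ h (x + r • z)
  rcases lt_or_ge (z ⬝ᵥ z) 1 with hz | hz
  · have h1 : x + r • z ∈ closedBall x r := by
      rw [mem_closedBall, dist_eq_norm, add_sub_cancel_left, norm_smul, Real.norm_eq_abs,
        abs_of_pos hr]
      exact mul_le_of_le_one_right hr.le ((norm_le_nrm z).trans (nrm_lt_one hz).le)
    rw [hh, indicator_of_mem h1]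
    exact mul_le_of_le_one_left (h0 _) (P_le_one 2 z)
  · have e2 : P 2 z = 0 := P_zero_of hz
    rw [e2, zero_mul, hh]
    exact indicator_nonneg (fun y _ => h0 y) _

lemma avg_bd (hv : ContDiff ℝ 2 v) {Ω : ℝ} (hΩ : ∀ y, nrm (vort v y) ≤ Ω) (x : V) (r : ℝ) :
    ∫ z, P 2 z * nrm (vort v (x + r • z)) ≤ Ω * ∫ z, P 2 z := by
  rw [← integral_const_mul]
  refine integral_mono (J_cont hv 1 r) ((P_integrable 1).const_mul Ω) fun z => ?_
  show P 2 z * nrm (vort v (x + r • z)) ≤ Ω * P 2 z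
  rw [mul_comm]
  exact mul_le_mul_of_nonneg_right (hΩ _) (P_nonneg 2 z)

lemma int_ab {f : V → ℝ} {x : V} {r : ℝ} (hr : 0 ≤ r) (hf : IntegrableOn f (closedBall x r))
    (a b : ℝ) : ∫ y in closedBall x r, (a + b * f y)
      = (2 * r) ^ 3 * a + b * ∫ y in closedBall x r, f y := by
  have h1 : IntegrableOn (fun _ : V => a) (closedBall x r) :=
    continuous_const.continuousOn.integrableOn_compact (isCompact_closedBall x r)
  have h2 := integral_add (f := fun _ : V => a) (g := fun y => b * f y) h1 (hf.const_mul b)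
  rw [h2, setIntegral_const, vol_ball x hr, smul_eq_mul, integral_const_mul]

/-- The elementary inequality which replaces the one of Cauchy and Schwarz. -/
lemma nrm_le_sq (w : V) {l : ℝ} (hl : 0 < l) : nrm w ≤ (l + l⁻¹ * (w ⬝ᵥ w)) / 2 := by
  rw [← nrm_sq]
  have h1 : 0 ≤ l⁻¹ * (l - nrm w) ^ 2 := by positivity
  have h2 : l⁻¹ * (l - nrm w) ^ 2 = l - 2 * nrm w + l⁻¹ * nrm w ^ 2 := by
    field_simp
    ring
  linarith

lemma sum_geo (n : ℕ) : ∑ j ∈ Finset.range n, ((1 / 256 : ℝ) ^ j) ^ 2 ≤ 2 := by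
  have h1 : ∀ j : ℕ, ((1 / 256 : ℝ) ^ j) ^ 2 ≤ (1 / 2) ^ j := by
    intro j
    rw [← pow_mul, mul_comm, pow_mul]
    exact pow_le_pow_left₀ (by positivity) (by norm_num) j
  refine (Finset.sum_le_sum fun j _ => h1 j).trans ?_
  have h2 := geom_sum_eq (show (1 / 2 : ℝ) ≠ 1 by norm_num) n
  rw [h2]
  have h3 : (0 : ℝ) < (1 / 2) ^ n := by positivity
  rw [div_le_iff_of_neg (by norm_num)]
  linarith

lemma ks_const {R M : ℝ} (hR : 0 < R) (hM : 0 ≤ M) (x : V) :
    KS R x (fun _ => M) (16 * M * R ^ 2) := by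
  intro n
  have h1 : ∀ j : ℕ, ((1 / 256 : ℝ) ^ j * R)⁻¹ * ∫ _y in closedBall x ((1 / 256 : ℝ) ^ j * R), M
      = 8 * M * R ^ 2 * ((1 / 256 : ℝ) ^ j) ^ 2 := by
    intro j
    have hp : 0 < (1 / 256 : ℝ) ^ j := by positivity
    rw [setIntegral_const, vol_ball x (by positivity), smul_eq_mul]
    field_simp
    ring
  simp only [h1]
  rw [← Finset.mul_sum]
  calc _ ≤ 8 * M * R ^ 2 * 2 := mul_le_mul_of_nonneg_left (sum_geo n) (by positivity)
    _ = _ := by ring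

/-- The condition on the azimuthal part of the vorticity of the field `v` about the axis through the
point `x` in the direction of the vorticity at `x`. -/
def Azi (ρ h : ℝ) (v : V → V) (x : V) : Prop :=
  ∃ η : ℝ → ℝ, (∀ r ∈ Ioo 0 ρ, 0 ≤ η r) ∧ MonotoneOn η (Ioo 0 ρ) ∧
    IntegrableOn (fun r => η r * min (nrm (vort v x)) (ρ ^ (-(1 / 2) : ℝ) / r ^ 2) / r) (Ioo 0 ρ) ∧
    ∫ r in Ioo 0 ρ, η r * min (nrm (vort v x)) (ρ ^ (-(1 / 2) : ℝ) / r ^ 2) / r ≤ h ∧
    ∀ y, 0 < nrm y → nrm y < ρ →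
      (y ⬝ᵥ vort v x) * ((vort v (x + y) + vort v (x - y)) ⬝ᵥ cross (vort v x) y)
        ≤ η (nrm y) * nrm y ^ 2 * nrm (vort v x) ^ 2
          * (nrm (vort v (x + y)) + nrm (vort v (x - y)))

/-- There is a function with Lipschitz constant one which increases along the vortex lines. -/
def TimeFn (κ ρ : ℝ) (v : V → V) (x : V) : Prop :=
  ∃ g : V → ℝ, ContDiff ℝ 1 g ∧ (∀ y z, |g y - g z| ≤ nrm (y - z)) ∧
    ∀ y, nrm (y - x) < ρ →
      κ * nrm (vort v y) ≤ fderiv ℝ g y (vort v y) + ρ ^ (-(5 / 2) : ℝ)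

lemma cross_smul_left (r : ℝ) (e z : V) : cross (r • e) z = r • cross e z := by
  ext i
  fin_cases i <;> simp [cross] <;> ring

/-- The bound of the rate of stretching at a point of maximal vorticity. -/
theorem rate_est {κ : ℝ} (hκ : 0 < κ) (hκ1 : κ ≤ 1) : ∃ C : ℝ, 0 < C ∧
    ∀ (E ρ h : ℝ) (v : V → V) (x : V), 0 < ρ → ContDiff ℝ 2 v → (∀ y, divergence v y = 0) →
      ∫ y in closedBall x ρ, v y ⬝ᵥ v y ≤ E → (∀ y, nrm (vort v y) ≤ nrm (vort v x)) →
      0 < nrm (vort v x) → TimeFn κ ρ v x → Azi ρ h v x →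
      rate v ((nrm (vort v x))⁻¹ • vort v x) x ≤ C * (1 + E) * (h + ρ ^ (-(5 / 2) : ℝ)) := by
  obtain ⟨C₁, hC₁, hL1⟩ := l1_bound
  obtain ⟨Cm, c, hCm, hc, hc1, hMor⟩ := Pool.Agent.U481.VL.morV κ hκ hκ1
  obtain ⟨I2, hI2⟩ : ∃ I2, I2 = ∫ z, P 2 z := ⟨_, rfl⟩
  obtain ⟨I3, hI3⟩ : ∃ I3, I3 = ∫ z, P 3 z := ⟨_, rfl⟩
  have i2 : 0 < I2 := by rw [hI2]; exact P_int_pos 1
  have i3 : 0 < I3 := by rw [hI3]; exact P_int_pos 2
  obtain ⟨k, hk⟩ : ∃ k, k = c / 4 := ⟨_, rfl⟩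
  have hk0 : 0 < k := by rw [hk]; positivity
  have hk1 : k ≤ 1 := by rw [hk]; linarith
  obtain ⟨C₃, hC₃⟩ : ∃ C₃, C₃ = Cm * (4 * (2 * C₁ + 1) / κ + 1) := ⟨_, rfl⟩
  have hC₃0 : 0 < C₃ := by rw [hC₃]; positivity
  obtain ⟨C₄, hC₄⟩ : ∃ C₄, C₄ = max I2 C₃ := ⟨_, rfl⟩
  have hC₄0 : 0 < C₄ := by rw [hC₄]; exact i2.trans_le (le_max_left _ _)
  refine ⟨(3 * k⁻¹ * (I2 + (k ^ 3)⁻¹) + 6 * C₄) / I3, by positivity, ?_⟩
  intro E ρ h v x hρ hv hdiv hE hmax hpos htf hazi
  obtain ⟨g, hg, hlip, htime⟩ := htf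
  obtain ⟨η, hη0, hηm, hηi, hηh, hone⟩ := hazi
  obtain ⟨Ω, hΩ⟩ : ∃ Ω, Ω = nrm (vort v x) := ⟨_, rfl⟩
  rw [← hΩ] at hmax hpos hηi hηh hone ⊢
  obtain ⟨S, hS⟩ : ∃ S, S = ρ ^ (-(1 / 2) : ℝ) := ⟨_, rfl⟩
  have hS0 : 0 < S := by rw [hS]; exact Real.rpow_pos_of_pos hρ _
  have hSρ : S ^ 2 * ρ = 1 := by
    rw [hS, ← Real.rpow_natCast, ← Real.rpow_mul hρ.le]
    rw [show (-(1 / 2) : ℝ) * ((2 : ℕ) : ℝ) = -1 by norm_num, Real.rpow_neg_one]
    exact inv_mul_cancel₀ hρ.ne'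
  have hS5 : ρ ^ (-(5 / 2) : ℝ) = S / ρ ^ 2 := by
    rw [hS, show (-(5 / 2) : ℝ) = -(1 / 2) - ((2 : ℕ) : ℝ) by norm_num, Real.rpow_sub hρ,
      Real.rpow_natCast]
  rw [← hS] at hηi hηh
  rw [hS5] at htime ⊢
  have hE0 : 0 ≤ E := (setIntegral_nonneg measurableSet_closedBall fun y _ =>
    dot_self_nonneg _).trans hE
  have cω : Continuous (vort v) := vort_cont hv
  have cn : Continuous fun y => nrm (vort v y) := nrm_cont.comp cω
  have cv2 : Continuous fun y => v y ⬝ᵥ v y := by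
    have hc := hv.continuous
    simp only [dotProduct]
    exact continuous_finsetSum _ fun i _ =>
      ((continuous_apply i).comp hc).mul ((continuous_apply i).comp hc)
  have ic : ∀ {f : V → ℝ} (_ : Continuous f) (r : ℝ), IntegrableOn f (closedBall x r) := fun hf r =>
    hf.continuousOn.integrableOn_compact (isCompact_closedBall x r)
  -- the cube in the ball
  have hball : ∀ y ∈ closedBall x (ρ / 2), nrm (y - x) < ρ := by
    intro y hy
    rw [mem_closedBall, dist_eq_norm] at hy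
    have h1 : ∀ i, (y - x) i ^ 2 ≤ (ρ / 2) ^ 2 := by
      intro i
      rw [sq_le_sq, abs_of_pos (show 0 < ρ / 2 by positivity)]
      have := norm_le_pi_norm (y - x) i
      rw [Real.norm_eq_abs] at this
      linarith
    unfold nrm
    rw [Real.sqrt_lt' hρ]
    simp only [dotProduct, Fin.sum_univ_three]
    nlinarith [h1 0, h1 1, h1 2]
  have hM0 : 0 ≤ S / ρ ^ 2 := by positivity
  have hLF : ∀ R, R ≤ ρ / 2 → LF κ R x (fun y => nrm (vort v y)) (fun _ => S / ρ ^ 2) (vort v) g := by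
    intro R hR
    refine ⟨(vort_DF hv).wd R x, cn, continuous_const, fun _ => hM0, fun y _ => le_rfl, hg, hlip,
      fun y hy => htime y (hball y ?_)⟩
    exact closedBall_subset_closedBall hR hy
  -- the integral of the vorticity
  have hR : 0 < ρ / 4 := by positivity
  have a1 := hL1 κ (ρ / 4) x _ g v hκ hR hv (hLF (2 * (ρ / 4)) (by linarith))
  rw [show 2 * (ρ / 4) = ρ / 2 by ring] at a1
  have a2 : ∫ y in closedBall x (ρ / 2), nrm (v y) ≤ S * ρ ^ 2 * (1 + E) / 2 := by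
    have hl : 0 < S / ρ := by positivity
    have e1 : (S / ρ)⁻¹ = S * ρ ^ 2 := by
      rw [inv_div, div_eq_iff hS0.ne']
      calc ρ = (S ^ 2 * ρ) * ρ := by rw [hSρ, one_mul]
        _ = _ := by ring
    have cc : Continuous fun y => (S / ρ + (S / ρ)⁻¹ * (v y ⬝ᵥ v y)) / 2 :=
      (continuous_const.add (continuous_const.mul cv2)).div_const _
    calc ∫ y in closedBall x (ρ / 2), nrm (v y)
        ≤ ∫ y in closedBall x (ρ / 2), (S / ρ + (S / ρ)⁻¹ * (v y ⬝ᵥ v y)) / 2 :=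
          setIntegral_mono_on (ic (nrm_cont.comp hv.continuous) _) (ic cc _)
            measurableSet_closedBall fun y _ => nrm_le_sq (v y) hl
      _ = ((2 * (ρ / 2)) ^ 3 * (S / ρ) + S * ρ ^ 2 * ∫ y in closedBall x (ρ / 2), v y ⬝ᵥ v y) / 2 := by
          rw [integral_div, int_ab (by positivity) (ic cv2 _), e1]
      _ ≤ _ := by
          have h1 : ∫ y in closedBall x (ρ / 2), v y ⬝ᵥ v y ≤ E :=
            (setIntegral_mono_set (ic cv2 _) (Eventually.of_forall fun y => dot_self_nonneg _)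
              (closedBall_subset_closedBall (by linarith)).eventuallyLE).trans hE
          have h2 : (2 * (ρ / 2)) ^ 3 * (S / ρ) = S * ρ ^ 2 := by field_simp
          rw [h2]
          have h3 := mul_le_mul_of_nonneg_left h1 (show 0 ≤ S * ρ ^ 2 by positivity)
          linarith
  have a3 : ∫ _y in closedBall x (ρ / 2), S / ρ ^ 2 = S * ρ := by
    rw [setIntegral_const, vol_ball x (by positivity), smul_eq_mul]
    field_simp
  rw [a3] at a1
  have a4 : (∫ y in closedBall x (ρ / 4), nrm (vort v y)) / (ρ / 4)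
      ≤ 4 * (2 * C₁ + 1) / κ * (S * (1 + E)) := by
    have h1 : C₁ / (ρ / 4) * (∫ y in closedBall x (ρ / 2), nrm (v y)) + S * ρ
        ≤ (2 * C₁ + 1) * (S * ρ * (1 + E)) := by
      have h2 := mul_le_mul_of_nonneg_left a2 (show 0 ≤ C₁ / (ρ / 4) by positivity)
      have h3 : C₁ / (ρ / 4) * (S * ρ ^ 2 * (1 + E) / 2) = 2 * C₁ * (S * ρ * (1 + E)) := by
        field_simp
        ring
      have h4 : S * ρ ≤ S * ρ * (1 + E) := le_mul_of_one_le_right (by positivity) (by linarith)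
      linarith
    have h5 := a1.trans h1
    rw [div_le_iff₀ hR]
    have h6 : 4 * (2 * C₁ + 1) / κ * (S * (1 + E)) * (ρ / 4)
        = (2 * C₁ + 1) * (S * ρ * (1 + E)) / κ := by
      field_simp
    rw [h6, le_div_iff₀ hκ, mul_comm]
    exact h5
  -- the Morrey bound
  have hks : KS (ρ / 4) x (fun _ => S / ρ ^ 2) S := by
    have h1 := ks_const hR hM0 x
    have h2 : 16 * (S / ρ ^ 2) * (ρ / 4) ^ 2 = S := by field_simp; ring
    rwa [h2] at h1
  have a5 : ∀ r, 0 < r → r ≤ c * (ρ / 4) →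
      ∫ y in closedBall x r, nrm (vort v y) ≤ C₃ * (1 + E) * S * r := by
    intro r hr hrc
    have h1 := hMor (ρ / 4) S x _ _ _ g hR (hLF (ρ / 4) (by linarith)) hks r hr hrc
    refine h1.trans ?_
    refine mul_le_mul_of_nonneg_right ?_ hr.le
    have h2 : S ≤ 1 * (S * (1 + E)) := by
      rw [one_mul]
      exact le_mul_of_one_le_right hS0.le (by linarith)
    calc Cm * ((∫ y in closedBall x (ρ / 4), nrm (vort v y)) / (ρ / 4) + S)
        ≤ Cm * (4 * (2 * C₁ + 1) / κ * (S * (1 + E)) + 1 * (S * (1 + E))) := by gcongr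
      _ = C₃ * (1 + E) * S := by rw [hC₃]; ring
  -- the averages
  have a6 : ∀ r, 0 < r → r ≤ c * (ρ / 4) → ∫ z, P 2 z * nrm (vort v (x + r • z))
      ≤ C₄ * (1 + E) * min Ω (S / r ^ 2) := by
    intro r hr hrc
    have h1 := avg_bd hv hmax x r
    have h2 := avg_le cn (fun y => nrm_nonneg _) x hr
    have h3 := mul_le_mul_of_nonneg_left (a5 r hr hrc) (show 0 ≤ (r ^ 3)⁻¹ by positivity)
    have h4 : (r ^ 3)⁻¹ * (C₃ * (1 + E) * S * r) = C₃ * (1 + E) * (S / r ^ 2) := by field_simp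
    rw [h4] at h3
    rw [← hI2] at h1
    rw [mul_min_of_nonneg _ _ (show 0 ≤ C₄ * (1 + E) by positivity)]
    refine le_min ?_ ?_
    · refine h1.trans ?_
      calc Ω * I2 ≤ Ω * (C₄ * (1 + E)) := by
            refine mul_le_mul_of_nonneg_left ?_ hpos.le
            calc I2 ≤ C₄ := by rw [hC₄]; exact le_max_left _ _
              _ ≤ C₄ * (1 + E) := le_mul_of_one_le_right hC₄0.le (by linarith)
        _ = _ := by ring
    · refine (h2.trans h3).trans ?_
      have h5 : C₃ ≤ C₄ := by rw [hC₄]; exact le_max_right _ _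
      gcongr
  -- the formula
  obtain ⟨e, he⟩ : ∃ e : V, e = Ω⁻¹ • vort v x := ⟨_, rfl⟩
  have he1 : nrm e = 1 := by
    rw [he, nrm_smul, abs_of_pos (inv_pos.2 hpos), ← hΩ]
    exact inv_mul_cancel₀ hpos.ne'
  rw [← he]
  obtain ⟨ρ₁, hρ₁⟩ : ∃ ρ₁, ρ₁ = k * ρ := ⟨_, rfl⟩
  have hρ₁0 : 0 < ρ₁ := by rw [hρ₁]; positivity
  have hρ₁c : ρ₁ = c * (ρ / 4) := by rw [hρ₁, hk]; ring
  have hρ₁ρ : ρ₁ ≤ ρ := by rw [hρ₁]; exact mul_le_of_le_one_left hρ.le hk1
  have hsub : Ioo 0 ρ₁ ⊆ Ioo 0 ρ := Ioo_subset_Ioo_right hρ₁ρ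
  have b1 := str_bound (x₀ := x) (e := e) hv hdiv hρ₁0 (fun r hr => hη0 r (hsub hr))
    (hηm.mono hsub) (fun y hy0 hyρ => by
      have h1 := hone y hy0 (hyρ.trans_le hρ₁ρ)
      rw [he, cross_smul_left, dotProduct_smul, dotProduct_smul, smul_eq_mul, smul_eq_mul]
      have h2 := mul_le_mul_of_nonneg_left h1 (show 0 ≤ (Ω ^ 2)⁻¹ by positivity)
      calc _ = (Ω ^ 2)⁻¹ * (y ⬝ᵥ vort v x
            * (vort v (x + y) + vort v (x - y)) ⬝ᵥ cross (vort v x) y) := by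
            field_simp
        _ ≤ _ := h2
        _ = _ := by field_simp)
    (φ := fun r => C₄ * (1 + E) * (η r * min Ω (S / r ^ 2) / r))
    ((hηi.mono_set hsub).const_mul _) (fun r hr => by
      have h1 := a6 r hr.1 (by rw [← hρ₁c]; exact hr.2.le)
      calc η r * ∫ z, P 2 z * nrm (vort v (x + r • z))
          ≤ η r * (C₄ * (1 + E) * min Ω (S / r ^ 2)) :=
            mul_le_mul_of_nonneg_left h1 (hη0 r (hsub hr))
        _ = r * (C₄ * (1 + E) * (η r * min Ω (S / r ^ 2) / r)) := by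
            have := hr.1.ne'
            field_simp)
  rw [integral_const_mul, ← hI3] at b1
  have b2 : ∫ r in Ioo 0 ρ₁, η r * min Ω (S / r ^ 2) / r ≤ h := by
    refine (setIntegral_mono_set hηi ?_ hsub.eventuallyLE).trans hηh
    refine (ae_restrict_iff' measurableSet_Ioo).2 (Eventually.of_forall fun r hr => ?_)
    have h1 : 0 ≤ min Ω (S / r ^ 2) := le_min hpos.le (by positivity)
    exact div_nonneg (mul_nonneg (hη0 r hr) h1) hr.1.le
  have hh0 : 0 ≤ h := by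
    refine le_trans (setIntegral_nonneg measurableSet_Ioo fun r hr => ?_) hηh
    have h1 : 0 ≤ min Ω (S / r ^ 2) := le_min hpos.le (by positivity)
    exact div_nonneg (mul_nonneg (hη0 r hr) h1) hr.1.le
  have b3 : ∫ z, P 3 z * rate v e (x + ρ₁ • z)
      ≤ 3 * k⁻¹ * (I2 + (k ^ 3)⁻¹) * (1 + E) * (S / ρ ^ 2) := by
    have h1 := A_bound' hv (x₀ := x) he1.le hρ₁0
    have hl : 0 < S / ρ := by positivity
    have e1 : (S / ρ)⁻¹ = S * ρ ^ 2 := by
      rw [inv_div, div_eq_iff hS0.ne']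
      calc ρ = (S ^ 2 * ρ) * ρ := by rw [hSρ, one_mul]
        _ = _ := by ring
    have i4 : Integrable fun z : V => P 2 z * (v (x + ρ₁ • z) ⬝ᵥ v (x + ρ₁ • z)) := by
      have h1 : Continuous fun z : V => P 2 z * (v (x + ρ₁ • z) ⬝ᵥ v (x + ρ₁ • z)) :=
        (P_cont 2).mul (cv2.comp (by fun_prop))
      exact h1.integrable_of_hasCompactSupport (P_supp 1).mul_right
    have i5 : Integrable fun z : V => P 2 z * nrm (v (x + ρ₁ • z)) := by
      have h1 : Continuous fun z : V => P 2 z * nrm (v (x + ρ₁ • z)) :=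
        (P_cont 2).mul (nrm_cont.comp (hv.continuous.comp (by fun_prop)))
      exact h1.integrable_of_hasCompactSupport (P_supp 1).mul_right
    have h2 : ∫ z, P 2 z * nrm (v (x + ρ₁ • z))
        ≤ (S / ρ * I2 + S * ρ ^ 2 * ((ρ₁ ^ 3)⁻¹ * E)) / 2 := by
      calc ∫ z, P 2 z * nrm (v (x + ρ₁ • z))
          ≤ ∫ z, (S / ρ * P 2 z + S * ρ ^ 2 * (P 2 z * (v (x + ρ₁ • z) ⬝ᵥ v (x + ρ₁ • z)))) / 2 := by
            refine integral_mono i5
              ((((P_integrable 1).const_mul _).add (i4.const_mul _)).div_const 2) fun z => ?_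
            have h3 := mul_le_mul_of_nonneg_left (nrm_le_sq (v (x + ρ₁ • z)) hl) (P_nonneg 2 z)
            rw [e1] at h3
            refine h3.trans (le_of_eq ?_)
            show _ = (S / ρ * P 2 z + S * ρ ^ 2 * (P 2 z * (v (x + ρ₁ • z) ⬝ᵥ v (x + ρ₁ • z)))) / 2
            ring
        _ = (S / ρ * I2 + S * ρ ^ 2 * ∫ z, P 2 z * (v (x + ρ₁ • z) ⬝ᵥ v (x + ρ₁ • z))) / 2 := by
            rw [integral_div, integral_add ((P_integrable 1).const_mul _) (i4.const_mul _),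
              integral_const_mul, integral_const_mul, hI2]
        _ ≤ _ := by
            have h4 := avg_le cv2 (fun y => dot_self_nonneg _) x hρ₁0
            have h5 : ∫ y in closedBall x ρ₁, v y ⬝ᵥ v y ≤ E :=
              (setIntegral_mono_set (ic cv2 _) (Eventually.of_forall fun y => dot_self_nonneg _)
                (closedBall_subset_closedBall hρ₁ρ).eventuallyLE).trans hE
            have h6 := h4.trans (mul_le_mul_of_nonneg_left h5 (show 0 ≤ (ρ₁ ^ 3)⁻¹ by positivity))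
            have h7 := mul_le_mul_of_nonneg_left h6 (show 0 ≤ S * ρ ^ 2 by positivity)
            linarith
    have h3 : ρ₁ * (∫ z, P 3 z * rate v e (x + ρ₁ • z))
        ≤ ρ₁ * (3 * k⁻¹ * (I2 + (k ^ 3)⁻¹) * (1 + E) * (S / ρ ^ 2)) := by
      refine h1.trans ?_
      calc 6 * ∫ z, P 2 z * nrm (v (x + ρ₁ • z))
          ≤ 6 * ((S / ρ * I2 + S * ρ ^ 2 * ((ρ₁ ^ 3)⁻¹ * E)) / 2) := by gcongr
        _ = 3 * (S / ρ) * (I2 * 1 + (k ^ 3)⁻¹ * E) := by
            rw [hρ₁]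
            field_simp
            norm_num
        _ ≤ 3 * (S / ρ) * (I2 * (1 + E) + (k ^ 3)⁻¹ * (1 + E)) := by
            have : 0 ≤ (k ^ 3)⁻¹ := by positivity
            gcongr
            · linarith
            · linarith
        _ = _ := by
            rw [hρ₁]
            field_simp
    exact le_of_mul_le_mul_left h3 hρ₁0
  rw [div_mul_eq_mul_div, div_mul_eq_mul_div, le_div_iff₀ i3, mul_comm]
  have b4 := mul_le_mul_of_nonneg_left b2 (show 0 ≤ C₄ * (1 + E) by positivity)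
  have b5 : 0 ≤ 3 * k⁻¹ * (I2 + (k ^ 3)⁻¹) * (1 + E) * h := by positivity
  have b6 : 0 ≤ 6 * C₄ * (1 + E) * (S / ρ ^ 2) := by positivity
  calc I3 * rate v e x ≤ _ := b1
    _ ≤ 3 * k⁻¹ * (I2 + (k ^ 3)⁻¹) * (1 + E) * (S / ρ ^ 2) + 6 * (C₄ * (1 + E) * h) := by linarith
    _ ≤ 3 * k⁻¹ * (I2 + (k ^ 3)⁻¹) * (1 + E) * (S / ρ ^ 2) + 6 * (C₄ * (1 + E) * h)
        + 3 * k⁻¹ * (I2 + (k ^ 3)⁻¹) * (1 + E) * h + 6 * C₄ * (1 + E) * (S / ρ ^ 2) := by linarith
    _ = (3 * k⁻¹ * (I2 + (k ^ 3)⁻¹) + 6 * C₄) * (1 + E) * (h + S / ρ ^ 2) := by ring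

end Pool.Agent.U481.EU
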