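import Pool.Agent.W786.Dir5

/-!
The rate of stretching at a point, from a one-sided bound of the azimuthal part of the vorticity.
-/

open MeasureTheory Set Filter
open scoped ENNReal NNReal Topology

set_option autoImplicit false

namespace Pool.Agent.U481.EU

open Pool.Agent.H708R2.EulerSign Pool.Agent.H708R2.EulerTypeI Pool.Agent.W786.Dir

variable {v : V → V}

lemma cross_anti (z e : V) : cross z e = -cross e z := by
  ext i
  fin_cases i <;> simp [cross] <;> ring

lemma cross_smul_right (r : ℝ) (e z : V) : cross e (r • z) = r • cross e z := by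
  ext i
  fin_cases i <;> simp [cross] <;> ring

lemma P_dot (n : ℕ) (z : V) : P n (-z) = P n z := by
  unfold P
  rw [neg_dotProduct, dotProduct_neg, neg_neg]

lemma cross_neg_right (e z : V) : cross e (-z) = -cross e z := by
  ext i
  fin_cases i <;> simp [cross] <;> ring

/-- The one-sided condition for the azimuthal part of the vorticity at pairs of points. -/
def One (v : V → V) (x e : V) (ρ : ℝ) (η : ℝ → ℝ) : Prop :=
  ∀ y, 0 < nrm y → nrm y < ρ → (y ⬝ᵥ e) * ((vort v (x + y) + vort v (x - y)) ⬝ᵥ cross e y)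
    ≤ η (nrm y) * nrm y ^ 2 * (nrm (vort v (x + y)) + nrm (vort v (x - y)))

/-- The one-sided bound of the derivative of the averages. -/
lemma dA_one (hv : ContDiff ℝ 2 v) (hdiv : ∀ x, divergence v x = 0) {x₀ e : V} {ρ : ℝ}
    {η : ℝ → ℝ} (h0 : ∀ r ∈ Ioo 0 ρ, 0 ≤ η r) (hm : MonotoneOn η (Ioo 0 ρ))
    (hone : One v x₀ e ρ η) {r : ℝ} (hr : r ∈ Ioo 0 ρ) :
    -(r * ∫ z, P 3 z * fderiv ℝ (rate v e) (x₀ + r • z) z)
      ≤ 6 * (η r * ∫ z, P 2 z * nrm (vort v (x₀ + r • z))) := by
  rw [rate_formula hv hdiv e x₀ r, ← mul_neg, ← integral_neg]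
  refine mul_le_mul_of_nonneg_left ?_ (by norm_num)
  rw [← integral_const_mul]
  have hc : Continuous fun z : V => vort v (x₀ + r • z) := (vort_cont hv).comp (by fun_prop)
  obtain ⟨F, hF⟩ : ∃ F : V → ℝ, F = fun z => -((z ⬝ᵥ e) * P 2 z
    * (vort v (x₀ + r • z) ⬝ᵥ cross z e)) := ⟨_, rfl⟩
  obtain ⟨G, hG⟩ : ∃ G : V → ℝ, G = fun z => η r * (P 2 z * nrm (vort v (x₀ + r • z))) := ⟨_, rfl⟩
  have hi : Integrable F := by
    have h1 : Continuous F := by
      have h2 : Continuous fun z : V => z ⬝ᵥ e := by simp only [dotProduct]; fun_prop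
      have h3 : Continuous fun z : V => cross z e := by
        refine continuous_pi fun i => ?_
        fin_cases i <;> simp [cross] <;> fun_prop
      have h4 : Continuous fun z : V => vort v (x₀ + r • z) ⬝ᵥ cross z e := by
        simp only [dotProduct]
        exact continuous_finsetSum _ fun i _ =>
          ((continuous_apply i).comp hc).mul ((continuous_apply i).comp h3)
      rw [hF]
      exact ((h2.mul (P_cont 2)).mul h4).neg
    refine h1.integrable_of_hasCompactSupport ?_
    refine HasCompactSupport.intro (K := Metric.closedBall (0 : V) 1) (isCompact_closedBall _ _) ?_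
    intro z hz
    have h5 : P 2 z = 0 := by
      by_contra hne
      exact hz (by
        have := subset_tsupport (P 2) hne
        have h6 : tsupport (P 2) ⊆ Metric.closedBall (0 : V) 1 := by
          refine closure_minimal ?_ Metric.isClosed_closedBall
          intro w hw
          by_contra hw2
          rw [mem_closedBall_zero_iff, not_le] at hw2
          refine hw (P_zero_of (n := 1) ?_)
          have h7 : ∃ i, 1 < ‖w i‖ := by
            by_contra hcon
            push Not at hcon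
            exact absurd ((pi_norm_le_iff_of_nonneg zero_le_one).2 hcon) (not_le.2 hw2)
          obtain ⟨i, hi⟩ := h7
          have h8 : w i * w i ≤ w ⬝ᵥ w :=
            Finset.single_le_sum (f := fun i => w i * w i) (fun i _ => mul_self_nonneg _)
              (Finset.mem_univ i)
          rw [Real.norm_eq_abs] at hi
          have h9 : 1 ≤ |w i| * |w i| := by nlinarith
          rw [abs_mul_abs_self] at h9
          linarith
        exact h6 this)
    rw [hF]
    show -((z ⬝ᵥ e) * P 2 z * (vort v (x₀ + r • z) ⬝ᵥ cross z e)) = 0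
    rw [h5]
    ring
  have hj : Integrable G := by
    rw [hG]
    exact (J_cont hv 1 r).const_mul _
  have hη := h0 r hr
  have hpt : ∀ z, F z + F (-z) ≤ G z + G (-z) := by
    intro z
    rw [hF, hG]
    show -((z ⬝ᵥ e) * P 2 z * (vort v (x₀ + r • z) ⬝ᵥ cross z e))
        + -((-z ⬝ᵥ e) * P 2 (-z) * (vort v (x₀ + r • -z) ⬝ᵥ cross (-z) e))
      ≤ η r * (P 2 z * nrm (vort v (x₀ + r • z)))
        + η r * (P 2 (-z) * nrm (vort v (x₀ + r • -z)))
    have e5 : x₀ + r • -z = x₀ - r • z := by rw [smul_neg, ← sub_eq_add_neg]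
    rw [P_dot, e5, cross_anti z e, cross_anti (-z) e, cross_neg_right, neg_neg]
    simp only [neg_dotProduct, dotProduct_neg]
    rcases lt_or_ge (z ⬝ᵥ z) 1 with hz | hz
    · have hz1 := nrm_lt_one hz
      have key : (z ⬝ᵥ e) * ((vort v (x₀ + r • z) + vort v (x₀ - r • z)) ⬝ᵥ cross e z)
          ≤ η r * (nrm (vort v (x₀ + r • z)) + nrm (vort v (x₀ - r • z))) := by
        have hn : 0 ≤ nrm (vort v (x₀ + r • z)) + nrm (vort v (x₀ - r • z)) :=
          add_nonneg (nrm_nonneg _) (nrm_nonneg _)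
        rcases (nrm_nonneg z).eq_or_lt with hz0 | hz0
        · have h1 : z = 0 := by
            have h2 := nrm_sq z
            rw [← hz0] at h2
            have h3 : z ⬝ᵥ z = 0 := by rw [← h2]; ring
            exact dotProduct_self_eq_zero.1 h3
          have h4 : (z ⬝ᵥ e) = 0 := by rw [h1, zero_dotProduct]
          rw [h4, zero_mul]
          exact mul_nonneg hη hn
        · have h1 : nrm (r • z) = r * nrm z := by
            rw [nrm_smul, abs_of_pos hr.1]
          have h2 : 0 < r * nrm z := mul_pos hr.1 hz0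
          have h3 : r * nrm z < r := mul_lt_of_lt_one_right hr.1 hz1
          have h4 := hone (r • z) (by rw [h1]; exact h2) (by rw [h1]; exact h3.trans hr.2)
          rw [h1, cross_smul_right, smul_dotProduct, dotProduct_smul,
            smul_eq_mul, smul_eq_mul] at h4
          have h5 : η (r * nrm z) ≤ η r := hm ⟨h2, h3.trans hr.2⟩ hr h3.le
          have h6 : (r * r) * ((z ⬝ᵥ e) * ((vort v (x₀ + r • z) + vort v (x₀ - r • z)) ⬝ᵥ cross e z))
              ≤ (r * r) * (η r * (nrm (vort v (x₀ + r • z)) + nrm (vort v (x₀ - r • z)))) := by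
            have h7 : η (r * nrm z) * (r * nrm z) ^ 2
                  * (nrm (vort v (x₀ + r • z)) + nrm (vort v (x₀ - r • z)))
                ≤ η r * (r * 1) ^ 2
                  * (nrm (vort v (x₀ + r • z)) + nrm (vort v (x₀ - r • z))) := by
              have hr0 := hr.1.le
              gcongr
            calc _ = r * (z ⬝ᵥ e) * (r * ((vort v (x₀ + r • z) + vort v (x₀ - r • z)) ⬝ᵥ cross e z)) := by
                  ring
              _ ≤ _ := h4
              _ ≤ _ := h7
              _ = _ := by ring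
          exact le_of_mul_le_mul_left h6 (mul_pos hr.1 hr.1)
      have h2 := mul_le_mul_of_nonneg_left key (P_nonneg 2 z)
      rw [add_dotProduct] at h2
      calc _ = P 2 z * ((z ⬝ᵥ e) * (vort v (x₀ + r • z) ⬝ᵥ cross e z
            + vort v (x₀ - r • z) ⬝ᵥ cross e z)) := by ring
        _ ≤ _ := h2
        _ = _ := by ring
    · have e2 : P 2 z = 0 := P_zero_of hz
      rw [e2]
      simp
  have e1 : ∫ z, (F z + F (-z)) = 2 * ∫ z, F z := by
    rw [integral_add hi hi.comp_neg, integral_neg_eq_self]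
    ring
  have e2 : ∫ z, (G z + G (-z)) = 2 * ∫ z, G z := by
    rw [integral_add hj hj.comp_neg, integral_neg_eq_self]
    ring
  have h1 := integral_mono (hi.add hi.comp_neg) (hj.add hj.comp_neg) hpt
  have h2 : 2 * ∫ z, F z ≤ 2 * ∫ z, G z := by
    rw [← e1, ← e2]
    exact h1
  have h3 : ∫ z, F z ≤ ∫ z, G z := by linarith
  rw [hF, hG] at h3
  exact h3

/-- The bound of the rate of stretching in the direction `e` at the point `x₀`. -/
theorem str_bound (hv : ContDiff ℝ 2 v) (hdiv : ∀ x, divergence v x = 0) {x₀ e : V} {ρ : ℝ}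
    (hρ : 0 < ρ) {η : ℝ → ℝ} (h0 : ∀ r ∈ Ioo 0 ρ, 0 ≤ η r) (hm : MonotoneOn η (Ioo 0 ρ))
    (hone : One v x₀ e ρ η) {φ : ℝ → ℝ} (hφ : IntegrableOn φ (Ioo 0 ρ))
    (hJ : ∀ r ∈ Ioo 0 ρ, η r * ∫ z, P 2 z * nrm (vort v (x₀ + r • z)) ≤ r * φ r) :
    (∫ z, P 3 z) * rate v e x₀
      ≤ (∫ z, P 3 z * rate v e (x₀ + ρ • z)) + 6 * ∫ r in Ioo 0 ρ, φ r := by
  set A : ℝ → ℝ := fun r => ∫ z, P 3 z * rate v e (x₀ + r • z) with hA
  set A' : ℝ → ℝ := fun r => ∫ z, P 3 z * fderiv ℝ (rate v e) (x₀ + r • z) z with hA'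
  have hAd : ∀ r, HasDerivAt A (A' r) r := fun r =>
    param_deriv (P_cont 3) (P_supp 2) (rate_contDiff hv e) x₀ r
  have hA0 : A 0 = (∫ z, P 3 z) * rate v e x₀ := by
    simp only [hA, zero_smul, add_zero]
    rw [integral_mul_const]
  have h1 : (-A ρ) - (-A 0) ≤ ∫ r in (0 : ℝ)..ρ, 6 * φ r := by
    refine intervalIntegral.sub_le_integral_of_hasDeriv_right_of_le (g := fun r => -A r)
      (g' := fun r => -A' r) hρ.le ?_ ?_ ?_ ?_
    · exact fun r _ => (hAd r).neg.continuousAt.continuousWithinAt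
    · exact fun r _ => (hAd r).neg.hasDerivWithinAt
    · rw [integrableOn_Icc_iff_integrableOn_Ioo]
      exact hφ.const_mul 6
    · intro r hr
      have h2 := dA_one hv hdiv h0 hm hone hr
      have h3 := hJ r hr
      have h4 : r * (-A' r) ≤ r * (6 * φ r) := by
        calc r * (-A' r) = -(r * A' r) := by ring
          _ ≤ _ := h2
          _ ≤ 6 * (r * φ r) := by linarith
          _ = _ := by ring
      exact le_of_mul_le_mul_left h4 hr.1
  rw [intervalIntegral.integral_of_le hρ.le, integral_Ioc_eq_integral_Ioo, integral_const_mul] at h1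
  rw [← hA0]
  linarith

/-- The average at the radius `r`. -/
lemma A_bound' (hv : ContDiff ℝ 2 v) {x₀ e : V} (he : nrm e ≤ 1) {r : ℝ} (hr : 0 < r) :
    r * (∫ z, P 3 z * rate v e (x₀ + r • z)) ≤ 6 * ∫ z, P 2 z * nrm (v (x₀ + r • z)) := by
  have hvj : ∀ j, ContDiff ℝ 1 fun y => v y j := fun j =>
    (contDiff_pi.1 hv j).of_le (by norm_num)
  set w : V → ℝ := fun y => ∑ j, e j * v y j with hw
  have cw : ContDiff ℝ 1 w := ContDiff.sum fun j _ => contDiff_const.mul (hvj j)
  set δ : V → ℝ := fun z => w (x₀ + r • z) with hδ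
  have cδ : ContDiff ℝ 1 δ := comp_aff cw x₀ r
  have dδ : ∀ z, fderiv ℝ δ z e = r * rate v e (x₀ + r • z) := by
    intro z
    rw [hδ, fderiv_comp_aff cw, smul_eq_mul]
    congr 1
    have h2 : HasFDerivAt v (fderiv ℝ v (x₀ + r • z)) (x₀ + r • z) :=
      ((hv.differentiable two_ne_zero) _).hasFDerivAt
    have h3 : HasFDerivAt w (∑ j, e j • ((ContinuousLinearMap.proj j : V →L[ℝ] ℝ) ∘L
        fderiv ℝ v (x₀ + r • z))) (x₀ + r • z) :=
      HasFDerivAt.fun_sum fun j _ => (hasFDerivAt_pi'.1 h2 j).const_mul (e j)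
    rw [h3.fderiv]
    have h4 : fderiv ℝ v (x₀ + r • z) e = ∑ k, e k • fderiv ℝ v (x₀ + r • z) (Pi.single k 1) := by
      conv_lhs => rw [show e = ∑ k, e k • (Pi.single k 1 : V) by
        ext i; simp [Finset.sum_apply, Pi.single_apply]]
      rw [map_sum]
      simp
    simp only [FunLike.coe_sum, Finset.sum_apply, FunLike.coe_smul, Pi.smul_apply,
      ContinuousLinearMap.comp_apply, smul_eq_mul, h4, rate, dotProduct, Matrix.mulVec, grad,
      Matrix.of_apply]
    refine Finset.sum_congr rfl fun j _ => ?_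
    simp [mul_comm]
  have h1 : r * ∫ z, P 3 z * rate v e (x₀ + r • z) = -∫ z, fderiv ℝ (P 3) z e * δ z := by
    rw [← ibp (P_contDiff 1) (P_supp 2) cδ e, ← integral_const_mul]
    refine integral_congr_ae (Eventually.of_forall fun z => ?_)
    simp only [dδ]
    ring
  rw [h1, ← integral_const_mul, ← integral_neg]
  have hvc : Continuous fun z : V => nrm (v (x₀ + r • z)) :=
    nrm_cont.comp (hv.continuous.comp (by fun_prop))
  have i2 : Integrable fun z : V => P 2 z * nrm (v (x₀ + r • z)) :=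
    ((P_cont 2).mul hvc).integrable_of_hasCompactSupport (P_supp 1).mul_right
  have i1 : Integrable fun z : V => -(fderiv ℝ (P 3) z e * δ z) := by
    have h5 : Continuous fun z : V => fderiv ℝ (P 3) z e :=
      ((P_contDiff 1).continuous_fderiv one_ne_zero).clm_apply continuous_const
    have h6 : HasCompactSupport fun z : V => fderiv ℝ (P 3) z e := (P_supp 2).fderiv_apply (𝕜 := ℝ) e
    exact ((h5.mul cδ.continuous).integrable_of_hasCompactSupport h6.mul_right).neg
  refine integral_mono i1 (i2.const_mul 6) fun z => ?_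
  show -(fderiv ℝ (P 3) z e * δ z) ≤ 6 * (P 2 z * nrm (v (x₀ + r • z)))
  refine (neg_le_abs _).trans ?_
  rw [abs_mul, show P 3 = P (1 + 2) from rfl, P_fderiv 1 z e]
  rcases lt_or_ge (z ⬝ᵥ z) 1 with hz | hz
  · have hz1 := (nrm_lt_one hz).le
    have b1 : |z ⬝ᵥ e| ≤ 1 := (dot_le _ _).trans (mul_le_one₀ hz1 (nrm_nonneg _) he)
    have b2 : |δ z| ≤ nrm (v (x₀ + r • z)) := by
      have e1 : δ z = e ⬝ᵥ v (x₀ + r • z) := by
        simp only [hδ, hw, dotProduct]
      rw [e1]
      exact (dot_le _ _).trans (mul_le_of_le_one_left (nrm_nonneg _) he)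
    have e3 : |-2 * (((1 : ℕ) : ℝ) + 2) * P (1 + 1) z * (z ⬝ᵥ e)| = 6 * P 2 z * |z ⬝ᵥ e| := by
      rw [abs_mul, abs_mul, abs_of_nonneg (P_nonneg (1 + 1) z)]
      norm_num
    rw [e3]
    have hp := P_nonneg 2 z
    calc 6 * P 2 z * |z ⬝ᵥ e| * |δ z| ≤ 6 * P 2 z * 1 * nrm (v (x₀ + r • z)) := by gcongr
      _ = 6 * (P 2 z * nrm (v (x₀ + r • z))) := by ring
  · have e3 : P (1 + 1) z = 0 := P_zero_of hz
    rw [e3]
    simp

end Pool.Agent.U481.EU
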